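import Pool.Agent.Helper35.KT.T6
import Pool.Agent.Helper18.KT.FZ

set_option autoImplicit false

/-!
# The sum over the families for thinned samples and the functional of the stability step
-/

open Finset

namespace KC

open KF

/-- A certificate function which is valid for thinned samples, and invariant. -/
structure TF (p : ℝ) (S : ℕ → ℤ) : Prop where
  iS : Inv7 S
  ok : TOK p S

theorem TF.add {p : ℝ} {S S' : ℕ → ℤ} (h : TF p S) (h' : TF p S') :
    TF p (fun m => S m + S' m) := ⟨h.iS.add h'.iS, h.ok.add h'.ok⟩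

theorem TF.congr {p : ℝ} {S S' : ℕ → ℤ} (h : TF p S) (h1 : ∀ m, S' m = S m) : TF p S' := by
  obtain rfl : S' = S := funext h1
  exact h

theorem TF.of_fam {p : ℝ} {g : ℕ → ℤ} {Tr gens : List (List ℕ)}
    {certs : List (List (ℕ × List ℕ))} (hTr : invAll Tr gens certs = true) (h : TOK p g)
    (hg : ∀ W ∈ gens, ∀ m, Adm m → g (awl W m) = g m) : TF p (KC.fam Tr g) :=
  ⟨Inv7.fam hTr hg, h.fam hTr⟩

theorem tf_5 {p : ℝ} (h0 : 0 ≤ p) {T : Tab} {gens : ℕ → List (List ℕ)}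
    {cert : List (ℕ × List (List ℕ))} (h : T.Good gens cert) (hp : ∀ t < T.NT, PsdT T t) :
    TF p (fam tree5.tr T.G5) :=
  TF.of_fam invT5 (tok_G5 h0 h hp) (Tab.G5_inv h)

theorem tf_3 {p : ℝ} (h0 : 0 ≤ p) {T : Tab} {AT : ℕ → ℕ → BT} (h : T.Good3 AT)
    (hp : ∀ t < 2, PsdT T t) : TF p (fam tree3.tr T.G3) :=
  TF.of_fam invT3 (tok_G3 h0 h hp) (Tab.G3_inv h)

theorem tf_1 {p : ℝ} {T : Tab} (h : T.Good1) (hp : PsdT T 0) : TF p (fam tree1.tr T.G1) :=
  TF.of_fam invT1 (tok_G1 h hp) (Tab.G1_inv h)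

theorem tf_D {T : TabD} {p : ℝ} (h0 : 0 ≤ p) (h : T.Good) (hA : (T.A : ℝ) * p = T.B) :
    TF p (fam treeD.tr T.GD) :=
  TF.of_fam invTD (tok_GD h0 hA) (TabD.GD_inv h)

theorem tf_V {T : VTab} {p : ℝ} (h0 : 0 ≤ p) (h : T.Good) (hG : T.ckG = true) (hA : 0 < T.PA)
    (hp : (T.PA : ℝ) * p = T.PB) : TF p (fam treeM.tr T.GV) :=
  TF.of_fam invTM (tok_GV h0 h hG hA hp) (VTab.GV_inv h)

/-- The sum over the families. -/
theorem tf_all {p : ℝ} (h0 : 0 ≤ p) {T5' T3' T1' : Tab} {gens : ℕ → List (List ℕ)}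
    {cert : List (ℕ × List (List ℕ))} {AT : ℕ → ℕ → BT} {TV : VTab} {TD : TabD}
    (g5 : T5'.Good gens cert) (p5 : ∀ t < T5'.NT, PsdT T5' t)
    (g3 : T3'.Good3 AT) (p3 : ∀ t < 2, PsdT T3' t)
    (g1 : T1'.Good1) (p1 : PsdT T1' 0)
    (gV : TV.Good) (hG : TV.ckG = true) (hA : 0 < TV.PA) (hV : (TV.PA : ℝ) * p = TV.PB)
    (gD : TD.Good) (hD : (TD.A : ℝ) * p = TD.B) :
    TF p (fun m => fam tree5.tr T5'.G5 m + (fam tree3.tr T3'.G3 m + (fam tree1.tr T1'.G1 m +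
      (fam treeM.tr TV.GV m + fam treeD.tr TD.GD m)))) :=
  (tf_5 h0 g5 p5).add ((tf_3 h0 g3 p3).add ((tf_1 g1 p1).add ((tf_V h0 gV hG hA hV).add
    (tf_D h0 gD hD))))

/-! ## The functional -/

section
variable {V : Type} [Fintype V]

/-- The thinned expectation of a real function does not change under a swap. -/
theorem Tr_FTs {E : V → V → V → Bool} (hE : K4m E) {w : V → ℝ} (hw : Wt w) (t a lam c : ℝ) :
    Tr t E w (fun m => (KT.FT a lam c m + KT.FT a lam c (tau 5 m)) / 2) =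
      Tr t E w (KT.FT a lam c) := by
  have h1 : Tr t E w (fun m => KT.FT a lam c (tau 5 m)) = Tr t E w (KT.FT a lam c) :=
    Tr_tau hE hw t (by norm_num : 5 < 6) (KT.FT a lam c)
  have h2 : Tr t E w (fun m => (KT.FT a lam c m + KT.FT a lam c (tau 5 m)) / 2) =
      1 / 2 * Tr t E w (fun m => KT.FT a lam c m + KT.FT a lam c (tau 5 m)) := by
    rw [← Tr_mul]
    exact Tr_congr t E w fun m _ => by ring
  rw [h2, Tr_add, h1]
  ring

end

/-- **The conclusion from a certificate with the functional of the stability step.**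
`K` is the common denominator: `A = K`, `B = K a`, `C = K lam / 2`, `D = K c`. -/
theorem thin_FT {p : ℝ} (hp : 0 ≤ p) {S : ℕ → ℤ} {a lam c : ℝ} {A B C D δ : ℕ}
    (hA0 : 0 < A) (hB : (B : ℝ) = A * a) (hC : 2 * (C : ℝ) = A * lam) (hD : (D : ℝ) = A * c)
    (hδ : 0 < δ) (hS : TF p S)
    (hpt : ∀ m ∈ KE.reps7, S m + fam treeF.tr (fz A B C D) m + δ ≤ 0) :
    ∃ θ : ℝ, 0 < θ ∧ ∀ (n : ℕ) (E : Fin n → Fin n → Fin n → Bool) (w : Fin n → ℝ), Opt E w →
      L - θ < dens E w → p < dens E w →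
      Ev 7 w (fun φ => KT.Th (KT.pe E (p / dens E w) φ) (KT.FT a lam c)) < 0 := by
  have hA : (0 : ℝ) < A := by exact_mod_cast hA0
  obtain ⟨θ, hθ, h⟩ := thin_final (g := fz A B C D)
    (F := fun m => (KT.FT a lam c m + KT.FT a lam c (tau 5 m)) / 2) hp invTF hS.ok hS.iS
    (fz_Inv7 A B C D) hA hδ (fun x _ => by
      rw [fz_FT rfl hB hC hD]
      ring) hpt
  refine ⟨θ, hθ, fun n E w ho hd hpd => ?_⟩
  have h1 := h n E w ho hd hpd
  rw [← Tr_Th, Tr_FTs ho.free ho.wt] at h1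
  rw [← Tr_Th]
  exact h1

end KC
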