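import Pool.Agent.Helper35.KT.T5

set_option autoImplicit false

/-!
# From the certificate to the thinned functional
-/

open Finset

namespace KC

open KF

theorem ofBits_testBit {n x : ℕ} (hx : x < 2 ^ n) :
    Nat.ofBits (fun e : Fin n => x.testBit e) = x := by
  refine Nat.eq_of_testBit_eq fun i => ?_
  by_cases hi : i < n
  · rw [Nat.testBit_ofBits_lt _ _ hi]
  · rw [Nat.testBit_ofBits_ge _ _ (by omega)]
    exact (Nat.testBit_eq_false_of_lt (lt_of_lt_of_le hx
      (Nat.pow_le_pow_right (by norm_num) (by omega)))).symm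

/-- The multilinear extension over functions is the sum over masks. -/
theorem Th_eq {n : ℕ} (p : Fin n → ℝ) (q : ℕ → ℝ) (h : ∀ e : Fin n, p e = q e) (f : ℕ → ℝ) :
    KT.Th p f = thM n q f := by
  unfold KT.Th thM
  refine Finset.sum_bij' (fun s _ => Nat.ofBits s) (fun x _ => fun e : Fin n => x.testBit e)
    ?_ ?_ ?_ ?_ ?_
  · intro s _
    exact Finset.mem_range.2 (Nat.ofBits_lt_two_pow _)
  · intro x _
    exact Finset.mem_univ _
  · intro s _
    funext e
    exact Nat.testBit_ofBits_lt _ _ e.2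
  · intro x hx
    exact ofBits_testBit (Finset.mem_range.1 hx)
  · intro s _
    congr 1
    unfold thW
    rw [Finset.prod_range]
    refine Finset.prod_congr rfl fun e _ => ?_
    rw [Nat.testBit_ofBits_lt _ _ e.2, h e]
    rfl

theorem Th_pe {V : Type} (E : V → V → V → Bool) (t : ℝ) (φ : Fin 7 → V) (f : ℕ → ℝ) :
    KT.Th (KT.pe E t φ) f = TH t (msk E φ) f := by
  refine Th_eq _ _ (fun e => ?_) f
  unfold KT.pe qm
  rw [← msk_eq, KF.msk_bit E φ e.1 e.2]

section
variable {V : Type} [Fintype V]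

theorem Tr_Th (E : V → V → V → Bool) (w : V → ℝ) (t : ℝ) (f : ℕ → ℝ) :
    Tr t E w f = Ev 7 w (fun φ => KT.Th (KT.pe E t φ) f) := by
  unfold Tr
  exact Ev_congr 7 w fun φ => (Th_pe E t φ f).symm

end

/-- The conclusion from a certificate: `S` valid for thinned samples, `g` the integer form of a
real functional `F` of masks. -/
theorem thin_final {p : ℝ} (hp : 0 ≤ p) {S g : ℕ → ℤ} {F : ℕ → ℝ} {N : ℝ} {δ : ℕ}
    {Q gens : List (List ℕ)} {certs : List (List (ℕ × List ℕ))}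
    (hTr : invAll Q gens certs = true)
    (hS : TOK p S) (iS : Inv7 S) (ig : Inv7 (fam Q g)) (hN : 0 < N) (hδ : 0 < δ)
    (hg : ∀ x < 2 ^ 35, ((g x : ℤ) : ℝ) = N * F x)
    (hpt : ∀ m ∈ KE.reps7, S m + fam Q g m + δ ≤ 0) :
    ∃ θ : ℝ, 0 < θ ∧ ∀ (n : ℕ) (E : Fin n → Fin n → Fin n → Bool) (w : Fin n → ℝ), Opt E w →
      L - θ < dens E w → p < dens E w →
      Ev 7 w (fun φ => KT.Th (KT.pe E (p / dens E w) φ) F) < 0 := by
  obtain ⟨θ, hθ, h⟩ := hS ((δ : ℝ) / 2) (by positivity)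
  refine ⟨θ, hθ, fun n E w ho hd hpd => ?_⟩
  obtain ⟨h0, h1, _⟩ := tp_mem hp hpd
  have h2 := h n E w ho hd hpd
  have hinv : Inv7 (fun m => -(δ : ℤ) - (S m + fam Q g m)) :=
    (Inv7.const _).sub (iS.add ig)
  have h3 := Tm_nonneg ho.free ho.wt h0 h1 (hinv.nonneg fun m hm => by linarith [hpt m hm])
  rw [Tm_sub, Tm_add, Tm_const _ E ho.wt] at h3
  have hw : ∀ W ∈ Q, wok W = true := by
    simp only [invAll, Bool.and_eq_true, List.all_eq_true] at hTr
    exact hTr.1
  rw [Tm_fam ho.free ho.wt _ g Q hw] at h3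
  have h4 : Tm (p / dens E w) E w g = N * Tr (p / dens E w) E w F := by
    rw [Tm_eq, ← Tr_mul]
    exact Tr_congr _ E w hg
  rw [h4] at h3
  rw [← Tr_Th]
  push_cast at h3
  have hδ' : (0 : ℝ) < δ := by exact_mod_cast hδ
  by_contra hcon
  push Not at hcon
  have h5 : 0 ≤ (Q.length : ℝ) * (N * Tr (p / dens E w) E w F) :=
    mul_nonneg (Nat.cast_nonneg _) (mul_nonneg hN.le hcon)
  linarith

end KC
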