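import Pool.Agent.Helper25.K4.Asm

set_option autoImplicit false

/-!
# Thinning of masks: multilinear extension of functions of masks
-/

open Finset

namespace KC

open KF

/-- The probability of the mask `x` on `n` bits if bit `i` is set with probability `q i`. -/
noncomputable def thW (n : ℕ) (q : ℕ → ℝ) (x : ℕ) : ℝ :=
  ∏ i ∈ range n, (if x.testBit i then q i else 1 - q i)

/-- The expectation of `f` over random masks. -/
noncomputable def thM (n : ℕ) (q : ℕ → ℝ) (f : ℕ → ℝ) : ℝ :=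
  ∑ x ∈ range (2 ^ n), thW n q x * f x

theorem thW_nonneg {n : ℕ} {q : ℕ → ℝ} (h : ∀ i < n, 0 ≤ q i ∧ q i ≤ 1) (x : ℕ) :
    0 ≤ thW n q x := by
  refine Finset.prod_nonneg fun i hi => ?_
  obtain ⟨h1, h2⟩ := h i (Finset.mem_range.1 hi)
  split
  · exact h1
  · linarith

theorem thW_congr {n : ℕ} {q q' : ℕ → ℝ} (h : ∀ i < n, q i = q' i) (x : ℕ) :
    thW n q x = thW n q' x := by
  refine Finset.prod_congr rfl fun i hi => ?_
  rw [h i (Finset.mem_range.1 hi)]

theorem thM_congr_q {n : ℕ} {q q' : ℕ → ℝ} (h : ∀ i < n, q i = q' i) (f : ℕ → ℝ) :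
    thM n q f = thM n q' f := by
  refine Finset.sum_congr rfl fun x _ => ?_
  rw [thW_congr h]

theorem thM_congr {n : ℕ} {q : ℕ → ℝ} {f g : ℕ → ℝ} (h : ∀ x < 2 ^ n, f x = g x) :
    thM n q f = thM n q g := by
  refine Finset.sum_congr rfl fun x hx => ?_
  rw [h x (Finset.mem_range.1 hx)]

theorem thM_congr' {n : ℕ} {q : ℕ → ℝ} {f g : ℕ → ℝ} (h : ∀ x, f x = g x) :
    thM n q f = thM n q g := thM_congr fun x _ => h x

theorem thM_add (n : ℕ) (q : ℕ → ℝ) (f g : ℕ → ℝ) :
    thM n q (fun x => f x + g x) = thM n q f + thM n q g := by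
  unfold thM
  rw [← Finset.sum_add_distrib]
  exact Finset.sum_congr rfl fun x _ => by ring

theorem thM_sub (n : ℕ) (q : ℕ → ℝ) (f g : ℕ → ℝ) :
    thM n q (fun x => f x - g x) = thM n q f - thM n q g := by
  unfold thM
  rw [← Finset.sum_sub_distrib]
  exact Finset.sum_congr rfl fun x _ => by ring

theorem thM_mul (n : ℕ) (q : ℕ → ℝ) (c : ℝ) (f : ℕ → ℝ) :
    thM n q (fun x => c * f x) = c * thM n q f := by
  unfold thM
  rw [Finset.mul_sum]
  exact Finset.sum_congr rfl fun x _ => by ring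

theorem thM_mul_right (n : ℕ) (q : ℕ → ℝ) (c : ℝ) (f : ℕ → ℝ) :
    thM n q (fun x => f x * c) = thM n q f * c := by
  unfold thM
  rw [Finset.sum_mul]
  exact Finset.sum_congr rfl fun x _ => by ring

theorem thM_sum {ι : Type} (s : Finset ι) (n : ℕ) (q : ℕ → ℝ) (f : ι → ℕ → ℝ) :
    thM n q (fun x => ∑ i ∈ s, f i x) = ∑ i ∈ s, thM n q (f i) := by
  unfold thM
  rw [Finset.sum_comm]
  refine Finset.sum_congr rfl fun x _ => ?_
  rw [Finset.mul_sum]

theorem thM_nonneg {n : ℕ} {q : ℕ → ℝ} (h : ∀ i < n, 0 ≤ q i ∧ q i ≤ 1) {f : ℕ → ℝ}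
    (hf : ∀ x < 2 ^ n, 0 ≤ f x) : 0 ≤ thM n q f :=
  Finset.sum_nonneg fun x hx => mul_nonneg (thW_nonneg h x) (hf x (Finset.mem_range.1 hx))

theorem thM_mono {n : ℕ} {q : ℕ → ℝ} (h : ∀ i < n, 0 ≤ q i ∧ q i ≤ 1) {f g : ℕ → ℝ}
    (hf : ∀ x < 2 ^ n, f x ≤ g x) : thM n q f ≤ thM n q g :=
  Finset.sum_le_sum fun x hx =>
    mul_le_mul_of_nonneg_left (hf x (Finset.mem_range.1 hx)) (thW_nonneg h x)

theorem thW_cat (a b : ℕ) (q : ℕ → ℝ) {x : ℕ} (hx : x < 2 ^ a) (y : ℕ) :
    thW (a + b) q (x + 2 ^ a * y) = thW a q x * thW b (fun i => q (a + i)) y := by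
  unfold thW
  rw [Finset.prod_range_add]
  have e : x + 2 ^ a * y = 2 ^ a * y + x := Nat.add_comm _ _
  rw [e]
  congr 1
  · refine Finset.prod_congr rfl fun i hi => ?_
    rw [Nat.testBit_two_pow_mul_add _ hx, if_pos (Finset.mem_range.1 hi)]
  · refine Finset.prod_congr rfl fun i _ => ?_
    rw [Nat.testBit_two_pow_mul_add _ hx, if_neg (by omega : ¬ a + i < a)]
    simp

theorem sum_range_cat (a b : ℕ) (f : ℕ → ℝ) :
    ∑ x ∈ range (2 ^ (a + b)), f x =
      ∑ x ∈ range (2 ^ a), ∑ y ∈ range (2 ^ b), f (x + 2 ^ a * y) := by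
  have ha : 0 < 2 ^ a := by positivity
  rw [← Finset.sum_product']
  refine Finset.sum_nbij' (fun x => (x % 2 ^ a, x / 2 ^ a)) (fun p => p.1 + 2 ^ a * p.2)
    ?_ ?_ ?_ ?_ ?_
  · intro x hx
    rw [Finset.mem_range, pow_add] at hx
    rw [Finset.mem_product, Finset.mem_range, Finset.mem_range]
    exact ⟨Nat.mod_lt _ ha, (Nat.div_lt_iff_lt_mul ha).2 (by rw [Nat.mul_comm]; exact hx)⟩
  · rintro ⟨x, y⟩ h
    rw [Finset.mem_product, Finset.mem_range, Finset.mem_range] at h
    obtain ⟨h1, h2⟩ := h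
    rw [Finset.mem_range, pow_add]
    simp only at h1 h2 ⊢
    calc x + 2 ^ a * y < 2 ^ a + 2 ^ a * y := by omega
      _ = 2 ^ a * (y + 1) := by ring
      _ ≤ 2 ^ a * 2 ^ b := Nat.mul_le_mul_left _ h2
  · intro x _
    exact Nat.mod_add_div x (2 ^ a)
  · rintro ⟨x, y⟩ h
    rw [Finset.mem_product, Finset.mem_range, Finset.mem_range] at h
    obtain ⟨h1, _⟩ := h
    simp only at h1 ⊢
    rw [Nat.add_mul_mod_self_left, Nat.mod_eq_of_lt h1, Nat.add_mul_div_left _ _ ha,
      Nat.div_eq_of_lt h1, Nat.zero_add]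
  · intro x _
    simp only
    rw [Nat.mod_add_div]

theorem thM_cat (a b : ℕ) (q : ℕ → ℝ) (f : ℕ → ℝ) :
    thM (a + b) q f =
      thM a q (fun x => thM b (fun i => q (a + i)) (fun y => f (x + 2 ^ a * y))) := by
  unfold thM
  rw [sum_range_cat]
  refine Finset.sum_congr rfl fun x hx => ?_
  rw [Finset.mul_sum]
  refine Finset.sum_congr rfl fun y _ => ?_
  rw [thW_cat a b q (Finset.mem_range.1 hx)]
  ring

/-- Splitting a function of the low and of the high bits. -/
theorem thM_split (a b : ℕ) (q : ℕ → ℝ) (g : ℕ → ℕ → ℝ) :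
    thM (a + b) q (fun x => g (x % 2 ^ a) (x / 2 ^ a)) =
      thM a q (fun x => thM b (fun i => q (a + i)) (fun y => g x y)) := by
  rw [thM_cat]
  refine thM_congr fun x hx => thM_congr' fun y => ?_
  rw [Nat.add_mul_mod_self_left, Nat.mod_eq_of_lt hx,
    Nat.add_mul_div_left _ _ (by positivity), Nat.div_eq_of_lt hx, Nat.zero_add]

theorem thM_one (q : ℕ → ℝ) (f : ℕ → ℝ) : thM 1 q f = (1 - q 0) * f 0 + q 0 * f 1 := by
  have h0 : (0 : ℕ).testBit 0 = false := by decide
  have h1 : (1 : ℕ).testBit 0 = true := by decide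
  simp [thM, thW, Finset.sum_range_succ, h0, h1]

theorem thM_zero (q : ℕ → ℝ) (f : ℕ → ℝ) : thM 0 q f = f 0 := by
  simp [thM, thW]

theorem thM_const : ∀ (n : ℕ) (q : ℕ → ℝ) (c : ℝ), thM n q (fun _ => c) = c
  | 0, q, c => thM_zero q _
  | n + 1, q, c => by
    rw [thM_cat n 1 q]
    have : ∀ q' : ℕ → ℝ, thM 1 q' (fun _ => c) = c := fun q' => by rw [thM_one]; ring
    simp only [this]
    exact thM_const n q c

/-- The expectation of one bit. -/
theorem thM_bit : ∀ (n : ℕ) (q : ℕ → ℝ) (i : ℕ), i < n →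
    thM n q (fun x => b2r (x.testBit i)) = q i
  | 0, _, _, h => by omega
  | n + 1, q, i, h => by
    rw [thM_cat n 1 q]
    by_cases hi : i < n
    · have e : thM n q (fun x => thM 1 (fun j => q (n + j)) (fun y =>
          b2r ((x + 2 ^ n * y).testBit i))) = thM n q (fun x => b2r (x.testBit i)) := by
        refine thM_congr fun x hx => ?_
        rw [← thM_const 1 (fun j => q (n + j)) (b2r (x.testBit i))]
        refine thM_congr' fun y => ?_
        rw [Nat.add_comm x, Nat.testBit_two_pow_mul_add _ hx, if_pos hi]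
      rw [e]
      exact thM_bit n q i hi
    · have hn : i = n := by omega
      subst hn
      have e : thM i q (fun x => thM 1 (fun j => q (i + j)) (fun y =>
          b2r ((x + 2 ^ i * y).testBit i))) = thM i q (fun _ => q i) := by
        refine thM_congr fun x hx => ?_
        rw [thM_one, Nat.add_comm x, Nat.add_comm x, Nat.testBit_two_pow_mul_add _ hx,
          Nat.testBit_two_pow_mul_add _ hx, if_neg (by omega), if_neg (by omega), Nat.sub_self,
          Nat.add_zero]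
        have h0 : (0 : ℕ).testBit 0 = false := by decide
        have h1 : (1 : ℕ).testBit 0 = true := by decide
        rw [h0, h1]
        simp [b2r]
      rw [e, thM_const]

/-- The probabilities of the thinned mask. -/
noncomputable def qm (t : ℝ) (m : ℕ) (i : ℕ) : ℝ := t * b2r (m.testBit i)

theorem qm_mem {t : ℝ} (h0 : 0 ≤ t) (h1 : t ≤ 1) (m i : ℕ) : 0 ≤ qm t m i ∧ qm t m i ≤ 1 := by
  unfold qm b2r
  split
  · simp [h0, h1]
  · simp

/-- The thinned mask: slices. -/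
theorem thM_slice (t : ℝ) (m s n : ℕ) (f : ℕ → ℝ) :
    thM n (fun i => qm t m (s + i)) f = thM n (qm t (m / 2 ^ s % 2 ^ n)) f := by
  refine thM_congr_q (fun i hi => ?_) f
  unfold qm
  rw [Nat.testBit_mod_two_pow, Nat.testBit_div_two_pow]
  simp [hi, Nat.add_comm]

theorem thM_slice0 (t : ℝ) (m n : ℕ) (f : ℕ → ℝ) :
    thM n (qm t m) f = thM n (qm t (m % 2 ^ n)) f := by
  refine thM_congr_q (fun i hi => ?_) f
  unfold qm
  rw [Nat.testBit_mod_two_pow]
  simp [hi]

/-- The thinned value of a function of masks of 35 bits. -/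
noncomputable def TH (t : ℝ) (m : ℕ) (f : ℕ → ℝ) : ℝ := thM 35 (qm t m) f

end KC
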