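import Pool.Agent.Helper35.KT.T1
import Pool.Agent.Helper91.KF.F5
import Pool.Agent.Helper91.KF.F7
import Pool.Agent.Helper91.KF.F9
import Pool.Agent.Helper85.KV.A1

set_option autoImplicit false

/-!
# Thinning of the integrands of the families
-/

open Finset

namespace KC

open KF

/-- Reading one field. -/
theorem thM_fld (t : ℝ) (m s n k : ℕ) (g : ℕ → ℕ → ℝ) :
    thM (n + k) (fun i => qm t m (s + i)) (fun x => g (x % 2 ^ n) (x / 2 ^ n)) =
      thM n (qm t (m / 2 ^ s % 2 ^ n)) (fun x => thM k (fun i => qm t m (s + n + i))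
        (fun y => g x y)) := by
  rw [thM_split, thM_slice]
  refine thM_congr' fun x => thM_congr_q (fun i _ => ?_) _
  rw [Nat.add_assoc]

/-- Skipping one field. -/
theorem thM_skip (t : ℝ) (m s n k : ℕ) (g : ℕ → ℝ) :
    thM (n + k) (fun i => qm t m (s + i)) (fun x => g (x / 2 ^ n)) =
      thM k (fun i => qm t m (s + n + i)) g := by
  have h := thM_fld t m s n k (fun _ y => g y)
  rw [h, thM_const]

theorem TH_eq (t : ℝ) (m : ℕ) (f : ℕ → ℝ) :
    TH t m f = thM 35 (fun i => qm t m (0 + i)) f :=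
  thM_congr_q (fun i _ => by rw [Nat.zero_add]) f

theorem dd (x a b c : ℕ) (h : a + b = c) : x / 2 ^ c = x / 2 ^ a / 2 ^ b := by
  rw [Nat.div_div_eq_div_mul, ← pow_add, h]

/-! ## Five roots -/

/-- The thinned table. -/
noncomputable def tS5 (t : ℝ) (Q : ℕ → ℕ → ℕ → ℝ) (r0 a0 b0 : ℕ) : ℝ :=
  thM 10 (qm t r0) fun r => thM 10 (qm t a0) fun a => thM 10 (qm t b0) fun b => Q r a b

theorem TH_S5 (t : ℝ) (Q : ℕ → ℕ → ℕ → ℝ) (m : ℕ) :
    TH t m (gS5 Q) = gS5 (tS5 t Q) m := by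
  have e1 : gS5 Q = fun x => (fun r y => Q r (y % 2 ^ 10) (y / 2 ^ 10 % 2 ^ 10))
      (x % 2 ^ 10) (x / 2 ^ 10) := by
    funext x
    unfold gS5
    rw [dd x 10 10 20 rfl]
  rw [TH_eq, e1]
  refine (thM_fld t m 0 10 25 (fun r y => Q r (y % 2 ^ 10) (y / 2 ^ 10 % 2 ^ 10))).trans ?_
  unfold gS5 tS5
  rw [pow_zero, Nat.div_one]
  refine thM_congr' fun r => ?_
  have h1 := thM_fld t m (0 + 10) 10 15 (fun a z => Q r a (z % 2 ^ 10))
  refine h1.trans ?_
  rw [Nat.zero_add]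
  refine thM_congr' fun a => ?_
  have h2 := thM_fld t m (10 + 10) 10 5 (fun b _ => Q r a b)
  refine h2.trans ?_
  refine thM_congr' fun b => ?_
  rw [thM_const]

theorem psd_bi {n N : ℕ} {q : ℕ → ℕ → ℝ} (hq : Psd n q) (K : ℕ → ℕ → ℝ) :
    Psd N (fun a0 b0 => ∑ a ∈ range n, ∑ b ∈ range n, K a0 a * K b0 b * q a b) := by
  intro f
  have h := hq (fun a => ∑ a0 ∈ range N, K a0 a * f a0)
  refine h.trans_eq ?_
  have e1 : ∀ a b : ℕ, q a b * (∑ a0 ∈ range N, K a0 a * f a0) * (∑ b0 ∈ range N, K b0 b * f b0) =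
      ∑ a0 ∈ range N, ∑ b0 ∈ range N, K a0 a * K b0 b * q a b * f a0 * f b0 := by
    intro a b
    rw [mul_assoc, Finset.sum_mul_sum, Finset.mul_sum]
    refine Finset.sum_congr rfl fun a0 _ => ?_
    rw [Finset.mul_sum]
    exact Finset.sum_congr rfl fun b0 _ => by ring
  simp only [e1]
  have e2 : ∀ a0 b0 : ℕ, (∑ a ∈ range n, ∑ b ∈ range n, K a0 a * K b0 b * q a b) * f a0 * f b0 =
      ∑ a ∈ range n, ∑ b ∈ range n, K a0 a * K b0 b * q a b * f a0 * f b0 := by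
    intro a0 b0
    rw [mul_assoc, Finset.sum_mul]
    refine Finset.sum_congr rfl fun a _ => ?_
    rw [Finset.sum_mul]
    exact Finset.sum_congr rfl fun b _ => by ring
  simp only [e2]
  calc _ = ∑ a ∈ range n, ∑ a0 ∈ range N, ∑ b ∈ range n, ∑ b0 ∈ range N,
        K a0 a * K b0 b * q a b * f a0 * f b0 :=
        Finset.sum_congr rfl fun a _ => Finset.sum_comm
    _ = ∑ a0 ∈ range N, ∑ a ∈ range n, ∑ b ∈ range n, ∑ b0 ∈ range N,
        K a0 a * K b0 b * q a b * f a0 * f b0 := Finset.sum_comm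
    _ = ∑ a0 ∈ range N, ∑ a ∈ range n, ∑ b0 ∈ range N, ∑ b ∈ range n,
        K a0 a * K b0 b * q a b * f a0 * f b0 :=
        Finset.sum_congr rfl fun a0 _ => Finset.sum_congr rfl fun a _ => Finset.sum_comm
    _ = ∑ a0 ∈ range N, ∑ b0 ∈ range N, ∑ a ∈ range n, ∑ b ∈ range n,
        K a0 a * K b0 b * q a b * f a0 * f b0 :=
        Finset.sum_congr rfl fun a0 _ => Finset.sum_comm

theorem psd_sum {ι : Type} {s : Finset ι} {n : ℕ} {q : ι → ℕ → ℕ → ℝ} (h : ∀ i ∈ s, Psd n (q i)) :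
    Psd n (fun a b => ∑ i ∈ s, q i a b) := by
  intro f
  have e : ∑ a ∈ range n, ∑ b ∈ range n, (∑ i ∈ s, q i a b) * f a * f b =
      ∑ i ∈ s, ∑ a ∈ range n, ∑ b ∈ range n, q i a b * f a * f b := by
    rw [Finset.sum_comm]
    calc _ = ∑ b ∈ range n, ∑ a ∈ range n, ∑ i ∈ s, q i a b * f a * f b := by
          refine Finset.sum_congr rfl fun b _ => Finset.sum_congr rfl fun a _ => ?_
          rw [mul_assoc, Finset.sum_mul]
          exact Finset.sum_congr rfl fun i _ => by ring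
      _ = ∑ b ∈ range n, ∑ i ∈ s, ∑ a ∈ range n, q i a b * f a * f b :=
          Finset.sum_congr rfl fun b _ => Finset.sum_comm
      _ = ∑ i ∈ s, ∑ b ∈ range n, ∑ a ∈ range n, q i a b * f a * f b := Finset.sum_comm
      _ = _ := Finset.sum_congr rfl fun i _ => Finset.sum_comm
  rw [e]
  exact Finset.sum_nonneg fun i hi => h i hi f

theorem psd_smul {n : ℕ} {q : ℕ → ℕ → ℝ} (h : Psd n q) {c : ℝ} (hc : 0 ≤ c) :
    Psd n (fun a b => c * q a b) := by
  intro f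
  have h1 := mul_nonneg hc (h f)
  refine h1.trans_eq ?_
  rw [Finset.mul_sum]
  refine Finset.sum_congr rfl fun a _ => ?_
  rw [Finset.mul_sum]
  exact Finset.sum_congr rfl fun b _ => by ring

theorem thM_two (n : ℕ) (q q' : ℕ → ℝ) (F : ℕ → ℕ → ℝ) :
    thM n q (fun a => thM n q' (fun b => F a b)) =
      ∑ a ∈ range (2 ^ n), ∑ b ∈ range (2 ^ n), thW n q a * thW n q' b * F a b := by
  unfold thM
  refine Finset.sum_congr rfl fun a _ => ?_
  rw [Finset.mul_sum]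
  exact Finset.sum_congr rfl fun b _ => by ring

theorem psd_thin {n N : ℕ} {q : ℕ → ℕ → ℝ} (hq : Psd (2 ^ n) q) (t : ℝ) (g : ℕ → ℕ) :
    Psd N (fun a0 b0 => thM n (qm t (g a0)) fun a => thM n (qm t (g b0)) fun b => q a b) := by
  have h := psd_bi (N := N) hq (fun a0 a => thW n (qm t (g a0)) a)
  intro f
  refine (h f).trans_eq ?_
  refine Finset.sum_congr rfl fun a0 _ => Finset.sum_congr rfl fun b0 _ => ?_
  beta_reduce
  rw [thM_two]

theorem psd_tS5 {t : ℝ} (h0 : 0 ≤ t) (h1 : t ≤ 1) {Q : ℕ → ℕ → ℕ → ℝ}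
    (hQ : ∀ r, Psd 1024 (Q r)) (r0 : ℕ) : Psd 1024 (tS5 t Q r0) := by
  have h : Psd 1024 (fun a0 b0 => ∑ r ∈ range (2 ^ 10), thW 10 (qm t r0) r *
      (thM 10 (qm t a0) fun a => thM 10 (qm t b0) fun b => Q r a b)) := by
    refine psd_sum fun r _ => psd_smul ?_ (thW_nonneg (fun i _ => qm_mem h0 h1 _ _) _)
    exact psd_thin (n := 10) (hQ r) t (fun a => a)
  exact h

section
variable {V : Type} [Fintype V]

theorem tkS5 (E : V → V → V → Bool) {w : V → ℝ} (hw : ∀ v, 0 ≤ w v) {t : ℝ} (h0 : 0 ≤ t)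
    (h1 : t ≤ 1) {Q : ℕ → ℕ → ℕ → ℝ} (hQ : ∀ r, Psd 1024 (Q r)) :
    0 ≤ Ev 7 w (fun φ => TH t (msk E φ) (gS5 Q)) := by
  simp only [TH_S5]
  exact kcS5 E hw (psd_tS5 h0 h1 hQ)

end

end KC
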