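import Pool.Agent.Helper35.KT.T2

set_option autoImplicit false

/-!
# Thinning of the integrands of the families, continued
-/

open Finset

namespace KC

open KF

theorem thM_catq (t : ℝ) (m s n k : ℕ) (f : ℕ → ℝ) :
    thM (n + k) (fun i => qm t m (s + i)) f =
      thM n (qm t (m / 2 ^ s % 2 ^ n)) (fun x => thM k (fun i => qm t m (s + n + i))
        (fun y => f (x + 2 ^ n * y))) := by
  rw [thM_cat, thM_slice]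
  refine thM_congr' fun x => thM_congr_q (fun i _ => ?_) _
  rw [Nat.add_assoc]

theorem thM_shift0 (t : ℝ) (m n : ℕ) (f : ℕ → ℝ) :
    thM n (qm t m) f = thM n (fun i => qm t m (0 + i)) f :=
  thM_congr_q (fun i _ => by rw [Nat.zero_add]) f

theorem thM_slice' (t : ℝ) (m s n : ℕ) (f : ℕ → ℝ) :
    thM n (fun i => qm t m (s + i)) f = thM n (qm t (m / 2 ^ s % 2 ^ n)) f := thM_slice t m s n f

theorem psd_comp {n N : ℕ} {q : ℕ → ℕ → ℝ} (hq : Psd n q) (g : ℕ → ℕ) (hg : ∀ a < N, g a < n) :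
    Psd N (fun a b => q (g a) (g b)) := by
  have h := psd_bi (N := N) hq (fun a0 a => if a = g a0 then (1 : ℝ) else 0)
  intro f
  refine (h f).trans_eq ?_
  refine Finset.sum_congr rfl fun a0 ha => Finset.sum_congr rfl fun b0 hb => ?_
  beta_reduce
  have ha' := hg a0 (Finset.mem_range.1 ha)
  have hb' := hg b0 (Finset.mem_range.1 hb)
  have e : ∑ a ∈ range n, ∑ b ∈ range n, (if a = g a0 then (1 : ℝ) else 0) *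
      (if b = g b0 then (1 : ℝ) else 0) * q a b = q (g a0) (g b0) := by
    rw [Finset.sum_eq_single (g a0)]
    · rw [Finset.sum_eq_single (g b0)]
      · simp
      · intro b _ hb2
        simp [hb2]
      · intro h2
        exact absurd (Finset.mem_range.2 hb') h2
    · intro a _ ha2
      simp [ha2]
    · intro h2
      exact absurd (Finset.mem_range.2 ha') h2
  rw [← e]

/-! ## Three roots -/

/-- The thinned table. -/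
noncomputable def tS3 (t : ℝ) (Q : ℕ → ℕ → ℕ → ℝ) (r0 A B : ℕ) : ℝ :=
  thM 1 (qm t r0) fun r => thM 9 (qm t (A / 2)) fun a => thM 9 (qm t (B / 2)) fun b =>
    Q r (r + 2 * a) (r + 2 * b)

theorem thM_333 (t : ℝ) (M : ℕ) (F : ℕ → ℝ) :
    thM 9 (qm t M) F = thM 3 (qm t (M % 2 ^ 3)) fun b1 => thM 3 (qm t (M / 2 ^ 3 % 2 ^ 3)) fun b2 =>
      thM 3 (qm t (M / 2 ^ 6 % 2 ^ 3)) fun b3 => F (b1 + 2 ^ 3 * (b2 + 2 ^ 3 * b3)) := by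
  rw [thM_shift0]
  refine (thM_catq t M 0 3 6 F).trans ?_
  rw [pow_zero, Nat.div_one]
  refine thM_congr' fun b1 => ?_
  refine (thM_catq t M (0 + 3) 3 3 _).trans ?_
  refine thM_congr' fun b2 => ?_
  exact thM_slice t M 6 3 _

theorem TH_S3 (t : ℝ) (Q : ℕ → ℕ → ℕ → ℝ) (m : ℕ) :
    TH t m (gS3 Q) = gS3 (tS3 t Q) m := by
  have e1 : gS3 Q = fun x => (fun r y => Q r (r + 2 * (y % 2 ^ 9)) (r + 2 * (y / 2 ^ 9 % 2 ^ 3) +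
      16 * (y / 2 ^ 9 / 2 ^ 10 % 2 ^ 3) + 128 * (y / 2 ^ 9 / 2 ^ 20 % 2 ^ 3)))
      (x % 2 ^ 1) (x / 2 ^ 1) := by
    funext x
    unfold gS3 sl3
    beta_reduce
    have h1 : x % 2 ^ 10 = x % 2 ^ 1 + 2 * (x / 2 ^ 1 % 2 ^ 9) := by omega
    have h2 : x / 2 ^ 10 = x / 2 ^ 1 / 2 ^ 9 := dd x 1 9 10 rfl
    have h3 : x / 2 ^ 20 = x / 2 ^ 1 / 2 ^ 9 / 2 ^ 10 := by
      rw [dd x 10 10 20 rfl, h2]
    have h4 : x / 2 ^ 30 = x / 2 ^ 1 / 2 ^ 9 / 2 ^ 20 := by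
      rw [dd x 10 20 30 rfl, h2]
    rw [h1, h2, h3, h4]
    rfl
  rw [TH_eq, e1]
  refine (thM_fld t m 0 1 34 (fun r y => Q r (r + 2 * (y % 2 ^ 9)) (r + 2 * (y / 2 ^ 9 % 2 ^ 3) +
      16 * (y / 2 ^ 9 / 2 ^ 10 % 2 ^ 3) + 128 * (y / 2 ^ 9 / 2 ^ 20 % 2 ^ 3)))).trans ?_
  unfold gS3 tS3
  rw [pow_zero, Nat.div_one]
  refine thM_congr' fun r => ?_
  refine (thM_fld t m (0 + 1) 9 25 (fun a y => Q r (r + 2 * a) (r + 2 * (y % 2 ^ 3) +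
      16 * (y / 2 ^ 10 % 2 ^ 3) + 128 * (y / 2 ^ 20 % 2 ^ 3)))).trans ?_
  have hA : m / 2 ^ (0 + 1) % 2 ^ 9 = m % 2 ^ 10 / 2 := by omega
  rw [hA]
  refine thM_congr' fun a => ?_
  have e2 : (fun y => Q r (r + 2 * a) (r + 2 * (y % 2 ^ 3) + 16 * (y / 2 ^ 10 % 2 ^ 3) +
      128 * (y / 2 ^ 20 % 2 ^ 3))) = fun y => (fun b1 z => (fun z2 => Q r (r + 2 * a) (r + 2 * b1 +
      16 * (z2 % 2 ^ 3) + 128 * (z2 / 2 ^ 10 % 2 ^ 3))) (z / 2 ^ 7)) (y % 2 ^ 3) (y / 2 ^ 3) := by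
    funext y
    beta_reduce
    rw [dd y 10 10 20 rfl, dd y 3 7 10 rfl]
  rw [e2]
  refine (thM_fld t m (0 + 1 + 9) 3 22 (fun b1 z => (fun z2 => Q r (r + 2 * a) (r + 2 * b1 +
      16 * (z2 % 2 ^ 3) + 128 * (z2 / 2 ^ 10 % 2 ^ 3))) (z / 2 ^ 7))).trans ?_
  rw [thM_333]
  have hs1 : sl3 m / 2 % 2 ^ 3 = m / 2 ^ (0 + 1 + 9) % 2 ^ 3 := by
    unfold sl3
    change _ = m / 2 ^ 10 % 8
    generalize m / 2 ^ 10 = u
    generalize m / 2 ^ 20 = v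
    generalize m / 2 ^ 30 = w
    omega
  have hs2 : sl3 m / 2 / 2 ^ 3 % 2 ^ 3 = m / 2 ^ 20 % 2 ^ 3 := by
    unfold sl3
    generalize m / 2 ^ 10 = u
    generalize m / 2 ^ 20 = v
    generalize m / 2 ^ 30 = w
    omega
  have hs3 : sl3 m / 2 / 2 ^ 6 % 2 ^ 3 = m / 2 ^ 30 % 2 ^ 3 := by
    unfold sl3
    generalize m / 2 ^ 10 = u
    generalize m / 2 ^ 20 = v
    generalize m / 2 ^ 30 = w
    omega
  rw [hs1, hs2, hs3]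
  refine thM_congr' fun b1 => ?_
  refine (thM_skip t m (0 + 1 + 9 + 3) 7 15 (fun z2 => Q r (r + 2 * a) (r + 2 * b1 +
      16 * (z2 % 2 ^ 3) + 128 * (z2 / 2 ^ 10 % 2 ^ 3)))).trans ?_
  have e3 : (fun z2 => Q r (r + 2 * a) (r + 2 * b1 + 16 * (z2 % 2 ^ 3) +
      128 * (z2 / 2 ^ 10 % 2 ^ 3))) = fun y => (fun b2 z => (fun z2 => Q r (r + 2 * a) (r + 2 * b1 +
      16 * b2 + 128 * (z2 % 2 ^ 3))) (z / 2 ^ 7)) (y % 2 ^ 3) (y / 2 ^ 3) := by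
    funext y
    beta_reduce
    rw [dd y 3 7 10 rfl]
  rw [e3]
  refine (thM_fld t m (0 + 1 + 9 + 3 + 7) 3 12 (fun b2 z => (fun z2 => Q r (r + 2 * a) (r + 2 * b1 +
      16 * b2 + 128 * (z2 % 2 ^ 3))) (z / 2 ^ 7))).trans ?_
  refine thM_congr' fun b2 => ?_
  refine (thM_skip t m (0 + 1 + 9 + 3 + 7 + 3) 7 5 (fun z2 => Q r (r + 2 * a) (r + 2 * b1 +
      16 * b2 + 128 * (z2 % 2 ^ 3)))).trans ?_
  refine (thM_fld t m (0 + 1 + 9 + 3 + 7 + 3 + 7) 3 2 (fun b3 _ => Q r (r + 2 * a) (r + 2 * b1 +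
      16 * b2 + 128 * b3))).trans ?_
  refine thM_congr' fun b3 => ?_
  rw [thM_const]
  congr 1
  ring

theorem psd_tS3 {t : ℝ} (h0 : 0 ≤ t) (h1 : t ≤ 1) {Q : ℕ → ℕ → ℕ → ℝ}
    (hQ : ∀ r, Psd 1024 (Q r)) (r0 : ℕ) : Psd 1024 (tS3 t Q r0) := by
  have h : Psd 1024 (fun A B => ∑ r ∈ range (2 ^ 1), thW 1 (qm t r0) r *
      (thM 9 (qm t (A / 2)) fun a => thM 9 (qm t (B / 2)) fun b =>
        Q r (r + 2 * a) (r + 2 * b))) := by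
    refine psd_sum fun r hr => psd_smul ?_ (thW_nonneg (fun i _ => qm_mem h0 h1 _ _) _)
    have hr2 : r < 2 := by simpa using hr
    refine psd_thin (n := 9) (q := fun a b => Q r (r + 2 * a) (r + 2 * b)) ?_ t (fun a => a / 2)
    exact psd_comp (hQ r) (fun a => r + 2 * a) (fun a ha => by
      have : a < 512 := ha
      omega)
  exact h

/-! ## One root -/

/-- The thinned table. -/
noncomputable def tS1 (t : ℝ) (Q : ℕ → ℕ → ℝ) (A B : ℕ) : ℝ :=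
  thM 4 (qm t A) fun a => thM 4 (qm t B) fun b => Q a b

theorem thM_1111 (t : ℝ) (M : ℕ) (F : ℕ → ℝ) :
    thM 4 (qm t M) F = thM 1 (qm t (M % 2 ^ 1)) fun b1 => thM 1 (qm t (M / 2 ^ 1 % 2 ^ 1)) fun b2 =>
      thM 1 (qm t (M / 2 ^ 2 % 2 ^ 1)) fun b3 => thM 1 (qm t (M / 2 ^ 3 % 2 ^ 1)) fun b4 =>
        F (b1 + 2 ^ 1 * (b2 + 2 ^ 1 * (b3 + 2 ^ 1 * b4))) := by
  rw [thM_shift0]
  refine (thM_catq t M 0 1 3 F).trans ?_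
  rw [pow_zero, Nat.div_one]
  refine thM_congr' fun b1 => ?_
  refine (thM_catq t M (0 + 1) 1 2 _).trans ?_
  refine thM_congr' fun b2 => ?_
  refine (thM_catq t M (0 + 1 + 1) 1 1 _).trans ?_
  refine thM_congr' fun b3 => ?_
  exact thM_slice t M 3 1 _

theorem TH_S1 (t : ℝ) (Q : ℕ → ℕ → ℝ) (m : ℕ) :
    TH t m (gS1 Q) = gS1 (tS1 t Q) m := by
  have e1 : gS1 Q = fun x => (fun a y => (fun y => Q a (y % 2 ^ 1 + 2 * (y / 2 ^ 10 % 2 ^ 1) +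
      4 * (y / 2 ^ 14 % 2 ^ 1) + 8 * (y / 2 ^ 18 % 2 ^ 1))) (y / 2 ^ 12))
      (x % 2 ^ 4) (x / 2 ^ 4) := by
    funext x
    unfold gS1 sl1
    beta_reduce
    have h1 : x / 2 ^ 16 = x / 2 ^ 4 / 2 ^ 12 := dd x 4 12 16 rfl
    rw [dd x 16 10 26 rfl, dd x 16 14 30 rfl, dd x 16 18 34 rfl, h1]
    rfl
  rw [TH_eq, e1]
  refine (thM_fld t m 0 4 31 (fun a y => (fun y => Q a (y % 2 ^ 1 + 2 * (y / 2 ^ 10 % 2 ^ 1) +
      4 * (y / 2 ^ 14 % 2 ^ 1) + 8 * (y / 2 ^ 18 % 2 ^ 1))) (y / 2 ^ 12))).trans ?_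
  unfold gS1 tS1
  rw [pow_zero, Nat.div_one]
  refine thM_congr' fun a => ?_
  refine (thM_skip t m (0 + 4) 12 19 (fun y => Q a (y % 2 ^ 1 + 2 * (y / 2 ^ 10 % 2 ^ 1) +
      4 * (y / 2 ^ 14 % 2 ^ 1) + 8 * (y / 2 ^ 18 % 2 ^ 1)))).trans ?_
  rw [thM_1111]
  have hs1 : sl1 m % 2 ^ 1 = m / 2 ^ (0 + 4 + 12) % 2 ^ 1 := by
    unfold sl1
    change _ = m / 2 ^ 16 % 2
    generalize m / 2 ^ 16 = u
    generalize m / 2 ^ 26 = v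
    generalize m / 2 ^ 30 = w
    generalize m / 2 ^ 34 = x
    omega
  have hs2 : sl1 m / 2 ^ 1 % 2 ^ 1 = m / 2 ^ 26 % 2 ^ 1 := by
    unfold sl1
    generalize m / 2 ^ 16 = u
    generalize m / 2 ^ 26 = v
    generalize m / 2 ^ 30 = w
    generalize m / 2 ^ 34 = x
    omega
  have hs3 : sl1 m / 2 ^ 2 % 2 ^ 1 = m / 2 ^ 30 % 2 ^ 1 := by
    unfold sl1
    generalize m / 2 ^ 16 = u
    generalize m / 2 ^ 26 = v
    generalize m / 2 ^ 30 = w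
    generalize m / 2 ^ 34 = x
    omega
  have hs4 : sl1 m / 2 ^ 3 % 2 ^ 1 = m / 2 ^ 34 % 2 ^ 1 := by
    unfold sl1
    generalize m / 2 ^ 16 = u
    generalize m / 2 ^ 26 = v
    generalize m / 2 ^ 30 = w
    generalize m / 2 ^ 34 = x
    omega
  rw [hs1, hs2, hs3, hs4]
  have e2 : (fun y => Q a (y % 2 ^ 1 + 2 * (y / 2 ^ 10 % 2 ^ 1) + 4 * (y / 2 ^ 14 % 2 ^ 1) +
      8 * (y / 2 ^ 18 % 2 ^ 1))) = fun y => (fun b1 z => (fun z => Q a (b1 + 2 * (z % 2 ^ 1) +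
      4 * (z / 2 ^ 4 % 2 ^ 1) + 8 * (z / 2 ^ 8 % 2 ^ 1))) (z / 2 ^ 9)) (y % 2 ^ 1) (y / 2 ^ 1) := by
    funext y
    beta_reduce
    rw [dd y 10 4 14 rfl, dd y 10 8 18 rfl, dd y 1 9 10 rfl]
  rw [e2]
  refine (thM_fld t m (0 + 4 + 12) 1 18 (fun b1 z => (fun z => Q a (b1 + 2 * (z % 2 ^ 1) +
      4 * (z / 2 ^ 4 % 2 ^ 1) + 8 * (z / 2 ^ 8 % 2 ^ 1))) (z / 2 ^ 9))).trans ?_
  refine thM_congr' fun b1 => ?_
  refine (thM_skip t m (0 + 4 + 12 + 1) 9 9 (fun z => Q a (b1 + 2 * (z % 2 ^ 1) +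
      4 * (z / 2 ^ 4 % 2 ^ 1) + 8 * (z / 2 ^ 8 % 2 ^ 1)))).trans ?_
  have e3 : (fun z => Q a (b1 + 2 * (z % 2 ^ 1) + 4 * (z / 2 ^ 4 % 2 ^ 1) +
      8 * (z / 2 ^ 8 % 2 ^ 1))) = fun y => (fun b2 z => (fun z => Q a (b1 + 2 * b2 +
      4 * (z % 2 ^ 1) + 8 * (z / 2 ^ 4 % 2 ^ 1))) (z / 2 ^ 3)) (y % 2 ^ 1) (y / 2 ^ 1) := by
    funext y
    beta_reduce
    rw [dd y 4 4 8 rfl, dd y 1 3 4 rfl]
  rw [e3]
  refine (thM_fld t m (0 + 4 + 12 + 1 + 9) 1 8 (fun b2 z => (fun z => Q a (b1 + 2 * b2 +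
      4 * (z % 2 ^ 1) + 8 * (z / 2 ^ 4 % 2 ^ 1))) (z / 2 ^ 3))).trans ?_
  refine thM_congr' fun b2 => ?_
  refine (thM_skip t m (0 + 4 + 12 + 1 + 9 + 1) 3 5 (fun z => Q a (b1 + 2 * b2 +
      4 * (z % 2 ^ 1) + 8 * (z / 2 ^ 4 % 2 ^ 1)))).trans ?_
  have e4 : (fun z => Q a (b1 + 2 * b2 + 4 * (z % 2 ^ 1) + 8 * (z / 2 ^ 4 % 2 ^ 1))) =
      fun y => (fun b3 z => (fun z => Q a (b1 + 2 * b2 + 4 * b3 + 8 * (z % 2 ^ 1))) (z / 2 ^ 3))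
        (y % 2 ^ 1) (y / 2 ^ 1) := by
    funext y
    beta_reduce
    rw [dd y 1 3 4 rfl]
  rw [e4]
  refine (thM_fld t m (0 + 4 + 12 + 1 + 9 + 1 + 3) 1 4 (fun b3 z => (fun z => Q a (b1 + 2 * b2 +
      4 * b3 + 8 * (z % 2 ^ 1))) (z / 2 ^ 3))).trans ?_
  refine thM_congr' fun b3 => ?_
  refine (thM_skip t m (0 + 4 + 12 + 1 + 9 + 1 + 3 + 1) 3 1 (fun z => Q a (b1 + 2 * b2 +
      4 * b3 + 8 * (z % 2 ^ 1)))).trans ?_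
  refine (thM_fld t m (0 + 4 + 12 + 1 + 9 + 1 + 3 + 1 + 3) 1 0 (fun b4 _ => Q a (b1 + 2 * b2 +
      4 * b3 + 8 * b4))).trans ?_
  refine thM_congr' fun b4 => ?_
  rw [thM_const]
  congr 1
  ring

theorem psd_tS1 {t : ℝ} {Q : ℕ → ℕ → ℝ} (hQ : Psd 16 Q) : Psd 16 (tS1 t Q) :=
  psd_thin (n := 4) hQ t (fun a => a)

section
variable {V : Type} [Fintype V]

theorem tkS3 (E : V → V → V → Bool) {w : V → ℝ} (hw : ∀ v, 0 ≤ w v) {t : ℝ} (h0 : 0 ≤ t)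
    (h1 : t ≤ 1) {Q : ℕ → ℕ → ℕ → ℝ} (hQ : ∀ r, Psd 1024 (Q r)) :
    0 ≤ Ev 7 w (fun φ => TH t (msk E φ) (gS3 Q)) := by
  simp only [TH_S3]
  exact kcS3 E hw (psd_tS3 h0 h1 hQ)

theorem tkS1 (E : V → V → V → Bool) {w : V → ℝ} (hw : ∀ v, 0 ≤ w v) (t : ℝ)
    {Q : ℕ → ℕ → ℝ} (hQ : Psd 16 Q) :
    0 ≤ Ev 7 w (fun φ => TH t (msk E φ) (gS1 Q)) := by
  simp only [TH_S1]
  exact kcS1 E hw (psd_tS1 hQ)

end

end KC
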