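import Pool.Agent.Helper35.KT.T3

set_option autoImplicit false

/-!
# Thinning of the cubic families, the degree equations and the second order families
-/

open Finset

namespace KC

open KF

theorem fldN {N : ℕ} (t : ℝ) (m s n k : ℕ) (h : n + k = N) (g : ℕ → ℕ → ℝ) :
    thM N (fun i => qm t m (s + i)) (fun x => g (x % 2 ^ n) (x / 2 ^ n)) =
      thM n (qm t (m / 2 ^ s % 2 ^ n)) (fun x => thM k (fun i => qm t m (s + n + i))
        (fun y => g x y)) := by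
  subst h
  exact thM_fld t m s n k g

theorem skipN {N : ℕ} (t : ℝ) (m s n k : ℕ) (h : n + k = N) (g : ℕ → ℝ) :
    thM N (fun i => qm t m (s + i)) (fun x => g (x / 2 ^ n)) =
      thM k (fun i => qm t m (s + n + i)) g := by
  subst h
  exact thM_skip t m s n k g

theorem tb34 (x : ℕ) : x.testBit 34 = (x / 2 ^ 34 % 2 ^ 1).testBit 0 := by
  rw [Nat.testBit_mod_two_pow, Nat.testBit_div_two_pow]
  simp

/-- Four roots, three patterns and the last bit. -/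
theorem TH_fields (t : ℝ) (m : ℕ) (F : ℕ → ℕ → ℕ → ℕ → Bool → ℝ) :
    TH t m (fun x => F (x % 16) (x / 16 % 64) (x / 2 ^ 10 % 64) (x / 2 ^ 20 % 64)
      (x.testBit 34)) =
    thM 4 (qm t (m % 16)) fun r => thM 6 (qm t (m / 16 % 64)) fun a =>
      thM 6 (qm t (m / 2 ^ 10 % 64)) fun b => thM 6 (qm t (m / 2 ^ 20 % 64)) fun c =>
        thM 1 (qm t (m / 2 ^ 34 % 2 ^ 1)) fun e => F r a b c (e.testBit 0) := by
  have e1 : (fun x => F (x % 16) (x / 16 % 64) (x / 2 ^ 10 % 64) (x / 2 ^ 20 % 64)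
      (x.testBit 34)) = fun x => (fun r y => F r (y % 2 ^ 6) (y / 2 ^ 6 % 2 ^ 6)
        (y / 2 ^ 16 % 2 ^ 6) (Nat.testBit (y / 2 ^ 30 % 2 ^ 1) 0)) (x % 2 ^ 4) (x / 2 ^ 4) := by
    funext x
    have h1 : x / 2 ^ 34 = x / 2 ^ 4 / 2 ^ 30 := dd x 4 30 34 rfl
    have h2 : x / 2 ^ 20 = x / 2 ^ 4 / 2 ^ 16 := dd x 4 16 20 rfl
    have h3 : x / 2 ^ 10 = x / 2 ^ 4 / 2 ^ 6 := dd x 4 6 10 rfl
    have h4 : x.testBit 34 = (x / 2 ^ 4 / 2 ^ 30 % 2 ^ 1).testBit 0 := by rw [tb34, h1]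
    rw [h4, h2, h3]
    rfl
  rw [TH_eq, e1]
  rw [fldN t m 0 4 31 rfl (fun (r y : ℕ) => F r (y % 2 ^ 6) (y / 2 ^ 6 % 2 ^ 6)
        (y / 2 ^ 16 % 2 ^ 6) (Nat.testBit (y / 2 ^ 30 % 2 ^ 1) 0))]
  rw [pow_zero, Nat.div_one]
  refine thM_congr' fun r => ?_
  have e2 : (fun y => F r (y % 2 ^ 6) (y / 2 ^ 6 % 2 ^ 6)
        (y / 2 ^ 16 % 2 ^ 6) (Nat.testBit (y / 2 ^ 30 % 2 ^ 1) 0)) = fun y => (fun a z => F r a
        (z % 2 ^ 6) (z / 2 ^ 10 % 2 ^ 6) (Nat.testBit (z / 2 ^ 24 % 2 ^ 1) 0)) (y % 2 ^ 6)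
          (y / 2 ^ 6) := by
    funext y
    beta_reduce
    rw [dd y 6 10 16 rfl, dd y 6 24 30 rfl]
  rw [e2]
  rw [fldN t m (0 + 4) 6 25 rfl (fun (a z : ℕ) => F r a
        (z % 2 ^ 6) (z / 2 ^ 10 % 2 ^ 6) (Nat.testBit (z / 2 ^ 24 % 2 ^ 1) 0))]
  refine thM_congr' fun a => ?_
  have e3 : (fun z => F r a (z % 2 ^ 6) (z / 2 ^ 10 % 2 ^ 6)
      (Nat.testBit (z / 2 ^ 24 % 2 ^ 1) 0)) = fun y => (fun b z => (fun z => F r a b
        (z % 2 ^ 6) (Nat.testBit (z / 2 ^ 14 % 2 ^ 1) 0)) (z / 2 ^ 4)) (y % 2 ^ 6)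
          (y / 2 ^ 6) := by
    funext y
    beta_reduce
    rw [dd y 10 14 24 rfl, dd y 6 4 10 rfl]
  rw [e3]
  rw [fldN t m (0 + 4 + 6) 6 19 rfl (fun (b z : ℕ) => (fun (z : ℕ) => F r a b
        (z % 2 ^ 6) (Nat.testBit (z / 2 ^ 14 % 2 ^ 1) 0)) (z / 2 ^ 4))]
  refine thM_congr' fun b => ?_
  rw [skipN t m (0 + 4 + 6 + 6) 4 15 rfl (fun (z : ℕ) => F r a b
        (z % 2 ^ 6) (Nat.testBit (z / 2 ^ 14 % 2 ^ 1) 0))]
  have e4 : (fun z => F r a b (z % 2 ^ 6) (Nat.testBit (z / 2 ^ 14 % 2 ^ 1) 0)) =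
      fun y => (fun c z => (fun z => F r a b c (Nat.testBit (z % 2 ^ 1) 0)) (z / 2 ^ 8)) (y % 2 ^ 6)
          (y / 2 ^ 6) := by
    funext y
    beta_reduce
    rw [dd y 6 8 14 rfl]
  rw [e4]
  rw [fldN t m (0 + 4 + 6 + 6 + 4) 6 9 rfl (fun (c z : ℕ) => (fun (z : ℕ) => F r a b c
    (Nat.testBit (z % 2 ^ 1) 0)) (z / 2 ^ 8))]
  refine thM_congr' fun c => ?_
  rw [skipN t m (0 + 4 + 6 + 6 + 4 + 6) 8 1 rfl (fun (z : ℕ) => F r a b c
    (Nat.testBit (z % 2 ^ 1) 0))]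
  rw [fldN t m (0 + 4 + 6 + 6 + 4 + 6 + 8) 1 0 rfl (fun (e _ : ℕ) => F r a b c
    (e.testBit 0))]
  refine thM_congr' fun e => ?_
  rw [thM_const]

/-- The value of one bit. -/
theorem thM_b34 (t : ℝ) (m : ℕ) (u v : ℝ) :
    thM 1 (qm t (m / 2 ^ 34 % 2 ^ 1)) (fun e => u + v * b2r (e.testBit 0)) =
      u + v * (t * b2r (m.testBit 34)) := by
  rw [thM_add, thM_const, thM_mul, thM_bit 1 _ 0 (by norm_num), qm, ← tb34]

/-- The polynomial of (V). -/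
def PV (p ga ca gb cb gc cc e : ℝ) : ℝ :=
  ga * ((cb + cc - cb * cc) * e - p * (cb * cc)) + gb * ((ca + cc - ca * cc) * e - p * (ca * cc)) +
    gc * ((ca + cb - ca * cb) * e - p * (ca * cb)) + ca * cb * cc * (p - e)

theorem gV_PV (μ : ℕ → ℝ) (G C : ℕ → ℕ → ℝ) (p : ℝ) (m : ℕ) :
    gV μ G C p m = μ (m % 16) * PV p (G (m % 16) (m / 16 % 64)) (C (m % 16) (m / 16 % 64))
      (G (m % 16) (m / 2 ^ 10 % 64)) (C (m % 16) (m / 2 ^ 10 % 64))
      (G (m % 16) (m / 2 ^ 20 % 64)) (C (m % 16) (m / 2 ^ 20 % 64)) (b2r (m.testBit 34)) := rfl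

theorem PV_a (n : ℕ) (q : ℕ → ℝ) (p : ℝ) (G C : ℕ → ℝ) (gb cb gc cc e : ℝ) :
    thM n q (fun x => PV p (G x) (C x) gb cb gc cc e) =
      PV p (thM n q G) (thM n q C) gb cb gc cc e := by
  have h : ∀ ga ca : ℝ, PV p ga ca gb cb gc cc e = ga * PV p 1 0 gb cb 0 cc e * 1 -
      ga * gc * cb * e + ca * (PV p 0 1 gb cb gc cc e) + ga * gc * cb * e -
      ga * (PV p 1 0 gb cb 0 cc e) + ga * (PV p 1 0 gb cb gc cc e) -
      (ga + ca - 1) * PV p 0 0 gb cb gc cc e := by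
    intro ga ca
    unfold PV
    ring
  have h2 : ∀ ga ca : ℝ, PV p ga ca gb cb gc cc e =
      ga * (PV p 1 0 gb cb gc cc e - PV p 0 0 gb cb gc cc e) +
      ca * (PV p 0 1 gb cb gc cc e - PV p 0 0 gb cb gc cc e) + PV p 0 0 gb cb gc cc e := by
    intro ga ca
    unfold PV
    ring
  have e1 : (fun x => PV p (G x) (C x) gb cb gc cc e) = fun x =>
      (G x * (PV p 1 0 gb cb gc cc e - PV p 0 0 gb cb gc cc e) +
      C x * (PV p 0 1 gb cb gc cc e - PV p 0 0 gb cb gc cc e)) + PV p 0 0 gb cb gc cc e := by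
    funext x
    exact h2 _ _
  rw [e1, thM_add, thM_add, thM_mul_right, thM_mul_right, thM_const, ← h2]

theorem PV_swab (p ga ca gb cb gc cc e : ℝ) :
    PV p ga ca gb cb gc cc e = PV p gb cb ga ca gc cc e := by unfold PV; ring

theorem PV_swac (p ga ca gb cb gc cc e : ℝ) :
    PV p ga ca gb cb gc cc e = PV p gc cc gb cb ga ca e := by unfold PV; ring

theorem PV_b (n : ℕ) (q : ℕ → ℝ) (p : ℝ) (G C : ℕ → ℝ) (ga ca gc cc e : ℝ) :
    thM n q (fun x => PV p ga ca (G x) (C x) gc cc e) =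
      PV p ga ca (thM n q G) (thM n q C) gc cc e := by
  rw [PV_swab, ← PV_a]
  exact thM_congr' fun x => PV_swab _ _ _ _ _ _ _ _

theorem PV_c (n : ℕ) (q : ℕ → ℝ) (p : ℝ) (G C : ℕ → ℝ) (ga ca gb cb e : ℝ) :
    thM n q (fun x => PV p ga ca gb cb (G x) (C x) e) =
      PV p ga ca gb cb (thM n q G) (thM n q C) e := by
  rw [PV_swac, ← PV_a]
  exact thM_congr' fun x => PV_swac _ _ _ _ _ _ _ _

theorem PV_e (t : ℝ) (m : ℕ) (p ga ca gb cb gc cc : ℝ) :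
    thM 1 (qm t (m / 2 ^ 34 % 2 ^ 1)) (fun e => PV p ga ca gb cb gc cc (b2r (e.testBit 0))) =
      PV p ga ca gb cb gc cc (t * b2r (m.testBit 34)) := by
  have h : ∀ e : ℝ, PV p ga ca gb cb gc cc e = PV p ga ca gb cb gc cc 0 +
      (PV p ga ca gb cb gc cc 1 - PV p ga ca gb cb gc cc 0) * e := by
    intro e
    unfold PV
    ring
  have e1 : (fun e : ℕ => PV p ga ca gb cb gc cc (b2r (e.testBit 0))) = fun e : ℕ =>
      PV p ga ca gb cb gc cc 0 +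
      (PV p ga ca gb cb gc cc 1 - PV p ga ca gb cb gc cc 0) * b2r (e.testBit 0) := by
    funext e
    exact h _
  rw [e1, thM_b34, ← h]

theorem PV_hom (t p ga ca gb cb gc cc e : ℝ) :
    PV (t * p) ga ca gb cb gc cc (t * e) = t * PV p ga ca gb cb gc cc e := by
  unfold PV; ring

/-- Thinned multiplier. -/
noncomputable def tμ (t : ℝ) (μ : ℕ → ℝ) (r r0 : ℕ) : ℝ := thW 4 (qm t r0) r * μ r

/-- Thinned class function. -/
noncomputable def tC (t : ℝ) (C : ℕ → ℕ → ℝ) (r _r0 l : ℕ) : ℝ := thM 6 (qm t l) (C r)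

theorem TH_V (t p : ℝ) (μ : ℕ → ℝ) (G C : ℕ → ℕ → ℝ) (m : ℕ) :
    TH t m (gV μ G C (t * p)) =
      t * ∑ r ∈ range 16, gV (tμ t μ r) (tC t G r) (tC t C r) p m := by
  have e1 : gV μ G C (t * p) = fun x => (fun r a b c (e : Bool) => μ r * PV (t * p) (G r a) (C r a)
      (G r b) (C r b) (G r c) (C r c) (b2r e)) (x % 16) (x / 16 % 64) (x / 2 ^ 10 % 64)
      (x / 2 ^ 20 % 64) (x.testBit 34) := by
    funext x
    rfl
  rw [e1]
  refine (TH_fields t m (fun r a b c (e : Bool) => μ r * PV (t * p) (G r a) (C r a)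
      (G r b) (C r b) (G r c) (C r c) (b2r e))).trans ?_
  simp only [thM_mul, PV_e, PV_c, PV_b, PV_a, PV_hom]
  unfold thM
  rw [Finset.mul_sum]
  refine Finset.sum_congr rfl fun r _ => ?_
  rw [gV_PV]
  unfold tμ tC thM
  ring

theorem thM_le_one {n : ℕ} {q : ℕ → ℝ} (h : ∀ i < n, 0 ≤ q i ∧ q i ≤ 1) {f : ℕ → ℝ}
    (hf : ∀ x < 2 ^ n, f x ≤ 1) : thM n q f ≤ 1 := by
  have := thM_mono h (g := fun _ => 1) hf
  rwa [thM_const] at this

/-! ## Degrees -/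

theorem tb30 (x : ℕ) : x.testBit 30 = (x / 2 ^ 30 % 2 ^ 1).testBit 0 := by
  rw [Nat.testBit_mod_two_pow, Nat.testBit_div_two_pow]
  simp

theorem thM_b30 (t : ℝ) (m : ℕ) (u v : ℝ) :
    thM 1 (qm t (m / 2 ^ 30 % 2 ^ 1)) (fun e => u + v * b2r (e.testBit 0)) =
      u + v * (t * b2r (m.testBit 30)) := by
  rw [thM_add, thM_const, thM_mul, thM_bit 1 _ 0 (by norm_num), qm, ← tb30]

theorem TH_D (t p : ℝ) (K : ℕ → ℝ) (m : ℕ) :
    TH t m (gD K (t * p)) = t * gD (fun r0 => thM 10 (qm t r0) K) p m := by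
  have e1 : gD K (t * p) = fun x => (fun r y => (fun z => K r * (b2r (Nat.testBit (z % 2 ^ 1) 0) -
      t * p)) (y / 2 ^ 20)) (x % 2 ^ 10) (x / 2 ^ 10) := by
    funext x
    unfold gD
    have h1 : x / 2 ^ 30 = x / 2 ^ 10 / 2 ^ 20 := dd x 10 20 30 rfl
    have h4 : x.testBit 30 = (x / 2 ^ 10 / 2 ^ 20 % 2 ^ 1).testBit 0 := by rw [tb30, h1]
    rw [h4]
  rw [TH_eq, e1]
  rw [fldN t m 0 10 25 rfl (fun (r y : ℕ) => (fun (z : ℕ) => K r * (b2r (Nat.testBit (z % 2 ^ 1) 0) -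
      t * p)) (y / 2 ^ 20))]
  rw [pow_zero, Nat.div_one]
  unfold gD
  have e2 : ∀ r, thM 25 (fun i => qm t m (0 + 10 + i)) (fun y => (fun z =>
      K r * (b2r (Nat.testBit (z % 2 ^ 1) 0) - t * p)) (y / 2 ^ 20)) =
      K r * (t * (b2r (m.testBit 30) - p)) := by
    intro r
    rw [skipN t m (0 + 10) 20 5 rfl (fun (z : ℕ) =>
      K r * (b2r (Nat.testBit (z % 2 ^ 1) 0) - t * p))]
    rw [fldN t m (0 + 10 + 20) 1 4 rfl (fun (e _ : ℕ) =>
      K r * (b2r (e.testBit 0) - t * p))]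
    have e3 : (fun x => thM 4 (fun i => qm t m (0 + 10 + 20 + 1 + i)) (fun _ =>
        K r * (b2r (Nat.testBit x 0) - t * p))) = fun x => (-(K r * (t * p))) +
          K r * b2r (Nat.testBit x 0) := by
      funext x
      rw [thM_const]
      ring
    rw [e3]
    refine (thM_b30 t m _ _).trans ?_
    ring
  simp only [e2]
  rw [thM_mul_right]
  ring

/-! ## Second order, classes -/

/-- Thinned table. -/
noncomputable def tHP (t : ℝ) (Q : ℕ → ℕ → ℕ → ℝ) (r0 a0 b0 : ℕ) : ℝ :=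
  thM 4 (qm t r0) fun r => thM 6 (qm t a0) fun a => thM 6 (qm t b0) fun b => Q r a b

theorem TH_HP (t p : ℝ) (Q : ℕ → ℕ → ℕ → ℝ) (m : ℕ) :
    TH t m (gHP Q (t * p)) = t * gHP (tHP t Q) p m := by
  have e1 : gHP Q (t * p) = fun x => (fun r a b c (e : Bool) => (Q r a b + Q r a c + Q r b c) *
      (t * p - b2r e)) (x % 16) (x / 16 % 64) (x / 2 ^ 10 % 64)
      (x / 2 ^ 20 % 64) (x.testBit 34) := by
    funext x
    rfl
  rw [e1]
  refine (TH_fields t m (fun r a b c (e : Bool) => (Q r a b + Q r a c + Q r b c) *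
      (t * p - b2r e))).trans ?_
  have e2 : ∀ u : ℝ, thM 1 (qm t (m / 2 ^ 34 % 2 ^ 1)) (fun e => u * (t * p - b2r (e.testBit 0))) =
      u * (t * (p - b2r (m.testBit 34))) := by
    intro u
    have e3 : (fun e : ℕ => u * (t * p - b2r (e.testBit 0))) = fun e : ℕ =>
        u * (t * p) + (-u) * b2r (e.testBit 0) := by
      funext e
      ring
    rw [e3, thM_b34]
    ring
  simp only [e2, thM_mul_right, thM_add, thM_const]
  unfold gHP tHP
  ring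

theorem psd_tHP {t : ℝ} (h0 : 0 ≤ t) (h1 : t ≤ 1) {Q : ℕ → ℕ → ℕ → ℝ}
    (hQ : ∀ r, Psd 64 (Q r)) (r0 : ℕ) : Psd 64 (tHP t Q r0) := by
  have h : Psd 64 (fun a0 b0 => ∑ r ∈ range (2 ^ 4), thW 4 (qm t r0) r *
      (thM 6 (qm t a0) fun a => thM 6 (qm t b0) fun b => Q r a b)) := by
    refine psd_sum fun r _ => psd_smul ?_ (thW_nonneg (fun i _ => qm_mem h0 h1 _ _) _)
    exact psd_thin (n := 6) (hQ r) t (fun a => a)
  exact h

theorem thM_comm (n k : ℕ) (q q' : ℕ → ℝ) (F : ℕ → ℕ → ℝ) :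
    thM n q (fun a => thM k q' (fun b => F a b)) = thM k q' (fun b => thM n q (fun a => F a b)) := by
  unfold thM
  simp only [Finset.mul_sum]
  rw [Finset.sum_comm]
  refine Finset.sum_congr rfl fun b _ => Finset.sum_congr rfl fun a _ => ?_
  ring

theorem tHP_symm (t : ℝ) {Q : ℕ → ℕ → ℕ → ℝ} (sQ : ∀ r a b, Q r a b = Q r b a) (r0 a0 b0 : ℕ) :
    tHP t Q r0 a0 b0 = tHP t Q r0 b0 a0 := by
  unfold tHP
  refine thM_congr' fun r => ?_
  rw [thM_comm]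
  exact thM_congr' fun b => thM_congr' fun a => sQ r _ _

/-! ## Second order, six atoms -/

/-- Thinned table. -/
noncomputable def tA6 (t : ℝ) (C : ℕ → ℕ → ℕ → ℕ → ℝ) (r0 l0 a b : ℕ) : ℝ :=
  thM 10 (qm t r0) fun r => thM 10 (qm t l0) fun l => C r l a b

theorem ixs_hi : ∀ a < 6, ∀ b < 6, (ixs a b 6 = 35 ∧ a = b) ∨ (20 ≤ ixs a b 6 ∧ ixs a b 6 < 35) := by
  decide +kernel

theorem tb_hi (x i : ℕ) (h : 20 ≤ i) (h2 : i < 35) : x.testBit i = (x / 2 ^ 20 % 2 ^ 15).testBit (i - 20) := by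
  rw [Nat.testBit_mod_two_pow, Nat.testBit_div_two_pow]
  have h1 : i - 20 < 15 := by omega
  have h3 : i - 20 + 20 = i := by omega
  simp [h1, h3]

theorem TH_A6 (t p : ℝ) (C : ℕ → ℕ → ℕ → ℕ → ℝ) {m : ℕ} (hm : m < 2 ^ 35) :
    TH t m (gA6 C (t * p)) = t * gA6 (tA6 t C) p m := by
  have key : ∀ a ∈ range 6, ∀ b ∈ range 6, TH t m (fun x => C (x % 2 ^ 10) (x / 2 ^ 10 % 2 ^ 10) a b *
      (t * p - b2r (x.testBit (ixs a b 6)))) = t * (tA6 t C (m % 2 ^ 10) (m / 2 ^ 10 % 2 ^ 10) a b *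
      (p - b2r (m.testBit (ixs a b 6)))) := by
    intro a ha b hb
    rw [Finset.mem_range] at ha hb
    rcases ixs_hi a ha b hb with ⟨h35, _⟩ | ⟨h20, h35⟩
    · have hz : ∀ x < 2 ^ 35, b2r (x.testBit (ixs a b 6)) = 0 := by
        intro x hx
        rw [h35, Nat.testBit_eq_false_of_lt hx]
        rfl
      have e0 : TH t m (fun x => C (x % 2 ^ 10) (x / 2 ^ 10 % 2 ^ 10) a b *
          (t * p - b2r (x.testBit (ixs a b 6)))) = TH t m (fun x => (fun r y =>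
            C r (y % 2 ^ 10) a b * (t * p)) (x % 2 ^ 10) (x / 2 ^ 10)) := by
        refine thM_congr fun x hx => ?_
        rw [hz x hx, sub_zero]
      rw [e0, hz m hm, TH_eq]
      rw [fldN t m 0 10 25 rfl (fun (r y : ℕ) => C r (y % 2 ^ 10) a b * (t * p))]
      rw [pow_zero, Nat.div_one]
      have e1 : ∀ r, thM 25 (fun i => qm t m (0 + 10 + i)) (fun y => C r (y % 2 ^ 10) a b * (t * p)) =
          thM 10 (qm t (m / 2 ^ 10 % 2 ^ 10)) (fun l => C r l a b) * (t * p) := by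
        intro r
        rw [fldN t m (0 + 10) 10 15 rfl (fun (l _ : ℕ) => C r l a b * (t * p))]
        rw [← thM_mul_right]
        exact thM_congr' fun l => thM_const _ _ _
      simp only [e1]
      rw [thM_mul_right]
      unfold tA6
      ring
    · set i := ixs a b 6 with hi
      have e0 : (fun x => C (x % 2 ^ 10) (x / 2 ^ 10 % 2 ^ 10) a b *
          (t * p - b2r (x.testBit i))) = fun x => (fun r y =>
            C r (y % 2 ^ 10) a b * (t * p - b2r (Nat.testBit (y / 2 ^ 10 % 2 ^ 15) (i - 20))))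
            (x % 2 ^ 10) (x / 2 ^ 10) := by
        funext x
        have h1 : x / 2 ^ 20 = x / 2 ^ 10 / 2 ^ 10 := dd x 10 10 20 rfl
        have h4 : x.testBit i = (x / 2 ^ 10 / 2 ^ 10 % 2 ^ 15).testBit (i - 20) := by
          rw [tb_hi x i h20 h35, h1]
        rw [h4]
      rw [e0, TH_eq]
      rw [fldN t m 0 10 25 rfl (fun (r y : ℕ) =>
            C r (y % 2 ^ 10) a b * (t * p - b2r (Nat.testBit (y / 2 ^ 10 % 2 ^ 15) (i - 20))))]
      rw [pow_zero, Nat.div_one]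
      have e1 : ∀ r, thM 25 (fun j => qm t m (0 + 10 + j)) (fun y => C r (y % 2 ^ 10) a b *
          (t * p - b2r (Nat.testBit (y / 2 ^ 10 % 2 ^ 15) (i - 20)))) =
          thM 10 (qm t (m / 2 ^ 10 % 2 ^ 10)) (fun l => C r l a b) *
            (t * (p - b2r (m.testBit i))) := by
        intro r
        rw [fldN t m (0 + 10) 10 15 rfl (fun (l z : ℕ) => C r l a b *
          (t * p - b2r (Nat.testBit (z % 2 ^ 15) (i - 20))))]
        rw [← thM_mul_right]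
        refine thM_congr' fun l => ?_
        rw [fldN t m (0 + 10 + 10) 15 0 rfl (fun (e _ : ℕ) => C r l a b *
          (t * p - b2r (e.testBit (i - 20))))]
        have e3 : (fun x => thM 0 (fun j => qm t m (0 + 10 + 10 + 15 + j)) (fun _ =>
            C r l a b * (t * p - b2r (Nat.testBit x (i - 20))))) = fun x => C r l a b * (t * p) +
              (-(C r l a b)) * b2r (Nat.testBit x (i - 20)) := by
          funext x
          rw [thM_const]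
          ring
        rw [e3, thM_add, thM_const, thM_mul, thM_bit 15 _ _ (by omega), qm]
        have e4 : (m / 2 ^ (0 + 10 + 10) % 2 ^ 15).testBit (i - 20) = m.testBit i :=
          (tb_hi m i h20 h35).symm
        rw [e4]
        ring
      simp only [e1]
      rw [thM_mul_right]
      unfold tA6
      ring
  unfold gA6
  unfold TH at key ⊢
  rw [thM_sum, Finset.mul_sum]
  refine Finset.sum_congr rfl fun a ha => ?_
  rw [thM_sum, Finset.mul_sum]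
  exact Finset.sum_congr rfl fun b hb => key a ha b hb

theorem psd_tA6 {t : ℝ} (h0 : 0 ≤ t) (h1 : t ≤ 1) {C : ℕ → ℕ → ℕ → ℕ → ℝ}
    (hC : ∀ r l, Psd 6 (C r l)) (r0 l0 : ℕ) : Psd 6 (tA6 t C r0 l0) := by
  have h : Psd 6 (fun a b => ∑ r ∈ range (2 ^ 10), thW 10 (qm t r0) r *
      (∑ l ∈ range (2 ^ 10), thW 10 (qm t l0) l * C r l a b)) := by
    refine psd_sum fun r _ => psd_smul ?_ (thW_nonneg (fun i _ => qm_mem h0 h1 _ _) _)
    exact psd_sum fun l _ => psd_smul (hC r l) (thW_nonneg (fun i _ => qm_mem h0 h1 _ _) _)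
  exact h

end KC
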