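import Pool.Agent.Helper35.KT.T4
import Pool.Agent.Helper94.KC.HS2
import Pool.Agent.Helper85.KV.A3
import Pool.Agent.Helper20.KT.Defs

set_option autoImplicit false

/-!
# Thinned expectations
-/

open Finset

namespace KC

open KF

/-! ## Symmetrisation -/

theorem tau_tau' {i x : ℕ} (hi : i < 6) (hx : x < 2 ^ 35) : tau i (tau i x) = x := by
  refine Nat.eq_of_testBit_eq fun s => ?_
  by_cases hs : s < 35
  · obtain ⟨h1, h2⟩ := ba_inv i hi s hs
    rw [tau_bit _ _ _ hi hs, tau_bit _ _ _ hi h1, h2]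
  · rw [Nat.testBit_eq_false_of_lt (lt_of_lt_of_le (tau_lt _ _)
      (Nat.pow_le_pow_right (by norm_num) (by omega))),
      Nat.testBit_eq_false_of_lt (lt_of_lt_of_le hx
      (Nat.pow_le_pow_right (by norm_num) (by omega)))]

theorem thW_tau (t : ℝ) {i : ℕ} (hi : i < 6) (m y : ℕ) :
    thW 35 (qm t m) (tau i y) = thW 35 (qm t (tau i m)) y := by
  unfold thW
  refine Finset.prod_nbij' (fun e => ba i e) (fun e => ba i e) ?_ ?_ ?_ ?_ ?_
  · intro e he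
    exact Finset.mem_range.2 (ba_inv i hi e (Finset.mem_range.1 he)).1
  · intro e he
    exact Finset.mem_range.2 (ba_inv i hi e (Finset.mem_range.1 he)).1
  · intro e he
    exact (ba_inv i hi e (Finset.mem_range.1 he)).2
  · intro e he
    exact (ba_inv i hi e (Finset.mem_range.1 he)).2
  · intro e he
    have he' := Finset.mem_range.1 he
    obtain ⟨h1, h2⟩ := ba_inv i hi e he'
    rw [tau_bit i y e hi he']
    unfold qm
    rw [tau_bit i m (ba i e) hi h1, h2]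

theorem TH_tau (t : ℝ) {i : ℕ} (hi : i < 6) (m : ℕ) (f : ℕ → ℝ) :
    TH t m (fun x => f (tau i x)) = TH t (tau i m) f := by
  unfold TH thM
  refine Finset.sum_nbij' (fun x => tau i x) (fun x => tau i x) ?_ ?_ ?_ ?_ ?_
  · intro x _
    exact Finset.mem_range.2 (tau_lt _ _)
  · intro x _
    exact Finset.mem_range.2 (tau_lt _ _)
  · intro x hx
    exact tau_tau' hi (Finset.mem_range.1 hx)
  · intro x hx
    exact tau_tau' hi (Finset.mem_range.1 hx)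
  · intro x hx
    rw [← thW_tau t hi m (tau i x), tau_tau' hi (Finset.mem_range.1 hx)]

section
variable {V : Type} [Fintype V]

/-- The thinned expectation of an integer function of masks. -/
noncomputable def Tm (t : ℝ) (E : V → V → V → Bool) (w : V → ℝ) (F : ℕ → ℤ) : ℝ :=
  Ev 7 w (fun φ => TH t (msk E φ) (fun x => ((F x : ℤ) : ℝ)))

/-- The thinned expectation of a real function of masks. -/
noncomputable def Tr (t : ℝ) (E : V → V → V → Bool) (w : V → ℝ) (F : ℕ → ℝ) : ℝ :=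
  Ev 7 w (fun φ => TH t (msk E φ) F)

theorem Tr_congr (t : ℝ) (E : V → V → V → Bool) (w : V → ℝ) {F G : ℕ → ℝ}
    (h : ∀ x < 2 ^ 35, F x = G x) : Tr t E w F = Tr t E w G :=
  Ev_congr 7 w fun _ => thM_congr h

theorem Tr_add (t : ℝ) (E : V → V → V → Bool) (w : V → ℝ) (F G : ℕ → ℝ) :
    Tr t E w (fun m => F m + G m) = Tr t E w F + Tr t E w G := by
  unfold Tr
  rw [← Ev_add]
  exact Ev_congr 7 w fun φ => thM_add _ _ _ _

theorem Tr_sub (t : ℝ) (E : V → V → V → Bool) (w : V → ℝ) (F G : ℕ → ℝ) :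
    Tr t E w (fun m => F m - G m) = Tr t E w F - Tr t E w G := by
  unfold Tr
  rw [← Ev_sub]
  exact Ev_congr 7 w fun φ => thM_sub _ _ _ _

theorem Tr_mul (t : ℝ) (E : V → V → V → Bool) (w : V → ℝ) (c : ℝ) (F : ℕ → ℝ) :
    Tr t E w (fun m => c * F m) = c * Tr t E w F := by
  unfold Tr
  rw [← Ev_mul]
  exact Ev_congr 7 w fun φ => thM_mul _ _ _ _

theorem Tr_sum (t : ℝ) (E : V → V → V → Bool) (w : V → ℝ) {ι : Type} (s : Finset ι)
    (F : ι → ℕ → ℝ) : Tr t E w (fun m => ∑ i ∈ s, F i m) = ∑ i ∈ s, Tr t E w (F i) := by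
  unfold Tr
  rw [← Ev_sum]
  exact Ev_congr 7 w fun φ => thM_sum _ _ _ _

theorem Tr_const (t : ℝ) (E : V → V → V → Bool) {w : V → ℝ} (hw : Wt w) (c : ℝ) :
    Tr t E w (fun _ => c) = c := by
  unfold Tr TH
  simp only [thM_const]
  exact Ev_const 7 w hw.one c

theorem Tm_eq (t : ℝ) (E : V → V → V → Bool) (w : V → ℝ) (F : ℕ → ℤ) :
    Tm t E w F = Tr t E w (fun x => ((F x : ℤ) : ℝ)) := rfl

theorem Tm_add (t : ℝ) (E : V → V → V → Bool) (w : V → ℝ) (F G : ℕ → ℤ) :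
    Tm t E w (fun m => F m + G m) = Tm t E w F + Tm t E w G := by
  rw [Tm_eq, Tm_eq, Tm_eq, ← Tr_add]
  exact Tr_congr t E w fun x _ => by push_cast; rfl

theorem Tm_sub (t : ℝ) (E : V → V → V → Bool) (w : V → ℝ) (F G : ℕ → ℤ) :
    Tm t E w (fun m => F m - G m) = Tm t E w F - Tm t E w G := by
  rw [Tm_eq, Tm_eq, Tm_eq, ← Tr_sub]
  exact Tr_congr t E w fun x _ => by push_cast; rfl

theorem Tm_smul (t : ℝ) (E : V → V → V → Bool) (w : V → ℝ) (c : ℤ) (F : ℕ → ℤ) :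
    Tm t E w (fun m => c * F m) = c * Tm t E w F := by
  rw [Tm_eq, Tm_eq, ← Tr_mul]
  exact Tr_congr t E w fun x _ => by push_cast; rfl

theorem Tm_const (t : ℝ) (E : V → V → V → Bool) {w : V → ℝ} (hw : Wt w) (c : ℤ) :
    Tm t E w (fun _ => c) = c := Tr_const t E hw _

/-- A mask with positive weight is a submask. -/
theorem adm_sub {m x : ℕ} (hm : Adm m) (hx : x < 2 ^ 35)
    (h : ∀ e < 35, x.testBit e = true → m.testBit e = true) : Adm x := by
  refine ⟨hx, fun a b c d h1 h2 h3 => ?_⟩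
  have key : ∀ a b c : Fin 7, bt x a b c = true → bt m a b c = true := by
    intro a b c hb
    unfold bt at hb ⊢
    by_cases he : ixs a.1 b.1 c.1 < 35
    · exact h _ he hb
    · rw [Nat.testBit_eq_false_of_lt (lt_of_lt_of_le hx
        (Nat.pow_le_pow_right (by norm_num) (by omega)))] at hb
      exact absurd hb (by decide)
  exact hm.free a b c d (key _ _ _ h1) (key _ _ _ h2) (key _ _ _ h3)

theorem TH_nonneg_adm {t : ℝ} (h0 : 0 ≤ t) (h1 : t ≤ 1) {m : ℕ} (hm : Adm m) {f : ℕ → ℝ}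
    (hf : ∀ x, Adm x → 0 ≤ f x) : 0 ≤ TH t m f := by
  unfold TH thM
  refine Finset.sum_nonneg fun x hx => ?_
  rw [Finset.mem_range] at hx
  by_cases h : ∀ e < 35, x.testBit e = true → m.testBit e = true
  · exact mul_nonneg (thW_nonneg (fun i _ => qm_mem h0 h1 _ _) _) (hf x (adm_sub hm hx h))
  · push Not at h
    obtain ⟨e, he, hxe, hme⟩ := h
    have hz : thW 35 (qm t m) x = 0 := by
      unfold thW
      refine Finset.prod_eq_zero (Finset.mem_range.2 he) ?_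
      rw [hxe]
      have : m.testBit e = false := by simpa using hme
      simp [qm, this, b2r]
    rw [hz, zero_mul]

theorem Tr_nonneg {E : V → V → V → Bool} (hE : K4m E) {w : V → ℝ} (hw : Wt w) {t : ℝ}
    (h0 : 0 ≤ t) (h1 : t ≤ 1) {F : ℕ → ℝ} (h : ∀ m, Adm m → 0 ≤ F m) : 0 ≤ Tr t E w F :=
  Ev_nonneg 7 w hw.nn fun φ => TH_nonneg_adm h0 h1 (adm_msk hE φ) h

theorem Tm_nonneg {E : V → V → V → Bool} (hE : K4m E) {w : V → ℝ} (hw : Wt w) {t : ℝ}
    (h0 : 0 ≤ t) (h1 : t ≤ 1) {F : ℕ → ℤ} (h : ∀ m, Adm m → 0 ≤ F m) : 0 ≤ Tm t E w F :=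
  Tr_nonneg hE hw h0 h1 fun m hm => by exact_mod_cast h m hm

theorem Tr_tau {E : V → V → V → Bool} (hE : K4m E) {w : V → ℝ} (hw : Wt w) (t : ℝ) {i : ℕ}
    (hi : i < 6) (f : ℕ → ℝ) : Tr t E w (fun m => f (tau i m)) = Tr t E w f := by
  unfold Tr
  simp only [TH_tau t hi]
  exact Ev_tau hE w hw.one i hi (fun m => TH t m f)

theorem Tr_awl {E : V → V → V → Bool} (hE : K4m E) {w : V → ℝ} (hw : Wt w) (t : ℝ)
    (f : ℕ → ℝ) : ∀ l : List ℕ, wok l = true → Tr t E w (fun m => f (awl l m)) = Tr t E w f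
  | [], _ => rfl
  | i :: l, hl => by
    obtain ⟨h1, h2⟩ := wok_cons.1 hl
    rw [← Tr_awl hE hw t f l h2]
    exact Tr_tau hE hw t h1 (fun m => f (awl l m))

theorem Tm_fam {E : V → V → V → Bool} (hE : K4m E) {w : V → ℝ} (hw : Wt w) (t : ℝ) (g : ℕ → ℤ) :
    ∀ Q : List (List ℕ), (∀ W ∈ Q, wok W = true) →
      Tm t E w (fam Q g) = Q.length * Tm t E w g
  | [], _ => by
    have h : fam [] g = fun _ => 0 := by funext m; simp [fam]
    rw [h, Tm_const t E hw]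
    simp
  | W :: Q, h => by
    have ih := Tm_fam hE hw t g Q (fun W hW => h W (List.mem_cons_of_mem _ hW))
    have h1 := Tr_awl hE hw t (fun m => ((g m : ℤ) : ℝ)) W (h W List.mem_cons_self)
    have h2 : fam (W :: Q) g = fun m => g (awl W m) + fam Q g m := by
      funext m
      simp [fam]
    rw [h2, Tm_add, ih]
    have h3 : Tm t E w (fun m => g (awl W m)) = Tm t E w g := h1
    rw [h3]
    simp only [List.length_cons, Nat.cast_add, Nat.cast_one]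
    ring

/-! ## The families -/

theorem thW_le_one {n : ℕ} {q : ℕ → ℝ} (h : ∀ i < n, 0 ≤ q i ∧ q i ≤ 1) (x : ℕ) :
    thW n q x ≤ 1 := by
  refine Finset.prod_le_one (fun i hi => ?_) (fun i hi => ?_)
  · obtain ⟨h1, h2⟩ := h i (Finset.mem_range.1 hi)
    split
    · exact h1
    · linarith
  · obtain ⟨h1, h2⟩ := h i (Finset.mem_range.1 hi)
    split
    · exact h2
    · linarith

theorem dV_le {μ : ℕ → ℝ} {G C : ℕ → ℕ → ℝ} (hμ : ∀ r, 0 ≤ μ r) (hG : ∀ r l, 0 ≤ G r l)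
    (hC0 : ∀ r l, 0 ≤ C r l) (hC1 : ∀ r l, C r l ≤ 1) (m : ℕ) :
    dV μ G C m ≤ μ (m % 16) := by
  unfold dV
  have h1 := hμ (m % 16)
  have a0 := hC0 (m % 16) (m / 16 % 64)
  have b0 := hC0 (m % 16) (m / 2 ^ 10 % 64)
  have c0 := hC0 (m % 16) (m / 2 ^ 20 % 64)
  have a1 := hC1 (m % 16) (m / 16 % 64)
  have b1 := hC1 (m % 16) (m / 2 ^ 10 % 64)
  have c1 := hC1 (m % 16) (m / 2 ^ 20 % 64)
  have ga := hG (m % 16) (m / 16 % 64)
  have gb := hG (m % 16) (m / 2 ^ 10 % 64)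
  have gc := hG (m % 16) (m / 2 ^ 20 % 64)
  have h2 : C (m % 16) (m / 16 % 64) * C (m % 16) (m / 2 ^ 10 % 64) *
      C (m % 16) (m / 2 ^ 20 % 64) ≤ 1 := by
    have := mul_le_one₀ a1 b0 b1
    exact mul_le_one₀ this c0 c1
  have h3 := mul_nonneg ga (mul_nonneg b0 c0)
  have h4 := mul_nonneg gb (mul_nonneg a0 c0)
  have h5 := mul_nonneg gc (mul_nonneg a0 b0)
  calc _ ≤ μ (m % 16) * 1 := mul_le_mul_of_nonneg_left (by linarith) h1
    _ = _ := mul_one _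

/-- (V) for thinned samples. -/
theorem tkV {E : V → V → V → Bool} {w : V → ℝ} (ho : Opt E w) {t : ℝ} (h0 : 0 ≤ t) (h1 : t ≤ 1)
    {μ : ℕ → ℝ} {G C : ℕ → ℕ → ℝ} (hμ : ∀ r, 0 ≤ μ r) (hG : ∀ r l, 0 ≤ G r l)
    (hGC : ∀ r l, G r l ≤ C r l) (hC1 : ∀ r l, C r l ≤ 1) :
    -(3 * (L - dens E w) * ∑ r ∈ range 16, μ r) ≤ Tr t E w (gV μ G C (t * dens E w)) := by
  have hd : 0 ≤ L - dens E w := by linarith [dens_le_L ho.free ho.wt]
  have hC0 : ∀ r l, 0 ≤ C r l := fun r l => (hG r l).trans (hGC r l)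
  have e1 : Tr t E w (gV μ G C (t * dens E w)) = t * ∑ r ∈ range 16,
      Ev 7 w (fun φ => gV (tμ t μ r) (tC t G r) (tC t C r) (dens E w) (msk E φ)) := by
    unfold Tr
    rw [← Ev_sum, ← Ev_mul]
    exact Ev_congr 7 w fun φ => TH_V _ _ _ _ _ _
  have hq : ∀ m i, i < 6 → 0 ≤ qm t m i ∧ qm t m i ≤ 1 := fun m i _ => qm_mem h0 h1 _ _
  have key : ∀ r ∈ range 16, -(3 * (L - dens E w) * μ r) ≤
      Ev 7 w (fun φ => gV (tμ t μ r) (tC t G r) (tC t C r) (dens E w) (msk E φ)) := by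
    intro r _
    have tμ0 : ∀ r0, 0 ≤ tμ t μ r r0 := fun r0 =>
      mul_nonneg (thW_nonneg (fun i _ => qm_mem h0 h1 _ _) _) (hμ r)
    have tμ1 : ∀ r0, tμ t μ r r0 ≤ μ r := fun r0 => by
      unfold tμ
      calc _ ≤ 1 * μ r := mul_le_mul_of_nonneg_right
            (thW_le_one (fun i _ => qm_mem h0 h1 _ _) _) (hμ r)
        _ = _ := one_mul _
    have tG0 : ∀ r0 l, 0 ≤ tC t G r r0 l := fun r0 l => thM_nonneg (hq l) fun x _ => hG _ _
    have tGC : ∀ r0 l, tC t G r r0 l ≤ tC t C r r0 l := fun r0 l =>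
      thM_mono (hq l) fun x _ => hGC _ _
    have tC0 : ∀ r0 l, 0 ≤ tC t C r r0 l := fun r0 l => (tG0 r0 l).trans (tGC r0 l)
    have tC1 : ∀ r0 l, tC t C r r0 l ≤ 1 := fun r0 l => thM_le_one (hq l) fun x _ => hC1 _ _
    have h2 := kcV ho tμ0 tG0 tGC tC1
    have h3 : Ev 7 w (fun φ => gV (tμ t μ r) (tC t G r) (tC t C r) L (msk E φ)) =
        Ev 7 w (fun φ => gV (tμ t μ r) (tC t G r) (tC t C r) (dens E w) (msk E φ)) +
        (L - dens E w) * Ev 7 w (fun φ => dV (tμ t μ r) (tC t G r) (tC t C r) (msk E φ)) := by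
      rw [← Ev_mul, ← Ev_add]
      exact Ev_congr 7 w fun φ => gV_split _ _ _ _ _ _
    have h4 : Ev 7 w (fun φ => dV (tμ t μ r) (tC t G r) (tC t C r) (msk E φ)) ≤ μ r := by
      rw [← Ev_const 7 w ho.wt.one (μ r)]
      exact Ev_mono 7 w ho.wt.nn fun φ => (dV_le tμ0 tG0 tC0 tC1 _).trans (tμ1 _)
    have h5 : Ev 7 w (fun φ => tμ t μ r (msk E φ % 16)) ≤ μ r := by
      rw [← Ev_const 7 w ho.wt.one (μ r)]
      exact Ev_mono 7 w ho.wt.nn fun φ => tμ1 _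
    have h6 := mul_le_mul_of_nonneg_left h4 hd
    have h7 := mul_le_mul_of_nonneg_left h5 hd
    linarith
  have h8 := Finset.sum_le_sum key
  rw [e1]
  have h9 : 0 ≤ 3 * (L - dens E w) * ∑ r ∈ range 16, μ r :=
    mul_nonneg (by positivity) (Finset.sum_nonneg fun r _ => hμ r)
  have h10 : ∑ r ∈ range 16, -(3 * (L - dens E w) * μ r) =
      -(3 * (L - dens E w) * ∑ r ∈ range 16, μ r) := by
    rw [Finset.sum_neg_distrib, Finset.mul_sum]
  rw [h10] at h8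
  have h11 := mul_le_mul_of_nonneg_left h8 h0
  nlinarith

/-- (D) for thinned samples. -/
theorem tkD {E : V → V → V → Bool} {w : V → ℝ} (ho : Opt E w) (t : ℝ) (K : ℕ → ℝ) :
    Tr t E w (gD K (t * dens E w)) = 0 := by
  unfold Tr
  simp only [TH_D]
  rw [Ev_mul, kcD ho, mul_zero]

/-- (H) for thinned samples. -/
theorem tkHP {E : V → V → V → Bool} {w : V → ℝ} (ho : Opt E w) {t : ℝ} (h0 : 0 ≤ t) (h1 : t ≤ 1)
    {Q : ℕ → ℕ → ℕ → ℝ} (hQ : ∀ r, Psd 64 (Q r)) (sQ : ∀ r a b, Q r a b = Q r b a) :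
    0 ≤ Tr t E w (gHP Q (t * dens E w)) := by
  unfold Tr
  simp only [TH_HP]
  rw [Ev_mul]
  exact mul_nonneg h0 (kcHP ho (psd_tHP h0 h1 hQ) (tHP_symm t sQ))

/-- (HA6) for thinned samples. -/
theorem tkA6 {E : V → V → V → Bool} {w : V → ℝ} (ho : Opt E w) {t : ℝ} (h0 : 0 ≤ t) (h1 : t ≤ 1)
    {C : ℕ → ℕ → ℕ → ℕ → ℝ} (hC : ∀ r l, Psd 6 (C r l)) (sC : ∀ r l a b, C r l a b = C r l b a) :
    0 ≤ Tr t E w (gA6 C (t * dens E w)) := by
  have e1 : Tr t E w (gA6 C (t * dens E w)) =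
      t * Ev 7 w (fun φ => gA6 (tA6 t C) (dens E w) (msk E φ)) := by
    unfold Tr
    rw [← Ev_mul]
    exact Ev_congr 7 w fun φ => TH_A6 _ _ _ (msk_lt E φ)
  rw [e1]
  refine mul_nonneg h0 (kcA6 ho (psd_tA6 h0 h1 hC) fun r l a b => ?_)
  unfold tA6
  exact thM_congr' fun r => thM_congr' fun l => sC _ _ _ _

end

/-! ## Validity of a certificate function for thinned samples -/

/-- `S` is a valid certificate function for thinned samples. -/
def TOK (p : ℝ) (S : ℕ → ℤ) : Prop :=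
  ∀ η : ℝ, 0 < η → ∃ θ : ℝ, 0 < θ ∧ ∀ (n : ℕ) (E : Fin n → Fin n → Fin n → Bool)
    (w : Fin n → ℝ), Opt E w → L - θ < dens E w → p < dens E w → -η ≤ Tm (p / dens E w) E w S

theorem TOK.add {p : ℝ} {S S' : ℕ → ℤ} (h : TOK p S) (h' : TOK p S') :
    TOK p (fun m => S m + S' m) := by
  intro η hη
  obtain ⟨θ, hθ, g⟩ := h (η / 2) (by positivity)
  obtain ⟨θ', hθ', g'⟩ := h' (η / 2) (by positivity)
  refine ⟨min θ θ', lt_min hθ hθ', fun n E w ho hd hp => ?_⟩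
  have h1 := g n E w ho (lt_of_le_of_lt (by linarith [min_le_left θ θ']) hd) hp
  have h2 := g' n E w ho (lt_of_le_of_lt (by linarith [min_le_right θ θ']) hd) hp
  rw [Tm_add]
  linarith

theorem TOK.of_nonneg {p : ℝ} {S : ℕ → ℤ} (h : ∀ (n : ℕ) (E : Fin n → Fin n → Fin n → Bool)
    (w : Fin n → ℝ), Opt E w → p < dens E w → 0 ≤ Tm (p / dens E w) E w S) : TOK p S := by
  intro η hη
  exact ⟨1, one_pos, fun n E w ho _ hp => by linarith [h n E w ho hp]⟩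

theorem TOK.of_lin {p K : ℝ} {S : ℕ → ℤ} (h : ∀ (n : ℕ) (E : Fin n → Fin n → Fin n → Bool)
    (w : Fin n → ℝ), Opt E w → p < dens E w →
    -(K * (L - dens E w)) ≤ Tm (p / dens E w) E w S) : TOK p S := by
  intro η hη
  refine ⟨η / (|K| + 1), by positivity, fun n E w ho hd hp => ?_⟩
  have h1 := h n E w ho hp
  have h2 : dens E w ≤ L := dens_le_L ho.free ho.wt
  have h4 : K * (L - dens E w) ≤ (|K| + 1) * (L - dens E w) :=
    mul_le_mul_of_nonneg_right (by linarith [le_abs_self K]) (by linarith)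
  have h5 : (|K| + 1) * (L - dens E w) ≤ (|K| + 1) * (η / (|K| + 1)) :=
    mul_le_mul_of_nonneg_left (by linarith) (by positivity)
  have h6 : (|K| + 1) * (η / (|K| + 1)) = η := by field_simp
  linarith

theorem TOK.fam {p : ℝ} {g : ℕ → ℤ} (h : TOK p g) {Q gens : List (List ℕ)}
    {certs : List (List (ℕ × List ℕ))} (hTr : invAll Q gens certs = true) :
    TOK p (KC.fam Q g) := by
  intro η hη
  obtain ⟨θ, hθ, h1⟩ := h (η / ((Q.length : ℝ) + 1)) (by positivity)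
  refine ⟨θ, hθ, fun n E w ho hd hp => ?_⟩
  have hw : ∀ W ∈ Q, wok W = true := by
    simp only [invAll, Bool.and_eq_true, List.all_eq_true] at hTr
    exact hTr.1
  rw [Tm_fam ho.free ho.wt _ g Q hw]
  have h2 := h1 n E w ho hd hp
  have h3 : (Q.length : ℝ) * (-(η / ((Q.length : ℝ) + 1))) ≤
      Q.length * Tm (p / dens E w) E w g := mul_le_mul_of_nonneg_left h2 (Nat.cast_nonneg _)
  have h4 : (Q.length : ℝ) * (η / ((Q.length : ℝ) + 1)) ≤ η := by
    rw [← mul_div_assoc, div_le_iff₀ (by positivity)]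
    nlinarith [(Nat.cast_nonneg Q.length : (0 : ℝ) ≤ Q.length)]
  linarith

theorem TOK.congr {p : ℝ} {S S' : ℕ → ℤ} (h : TOK p S) (h1 : ∀ m, S' m = S m) : TOK p S' := by
  obtain rfl : S' = S := funext h1
  exact h

theorem TOK.smul {p : ℝ} {S : ℕ → ℤ} (h : TOK p S) (c : ℕ) :
    TOK p (fun m => (c : ℤ) * S m) := by
  intro η hη
  obtain ⟨θ, hθ, h1⟩ := h (η / ((c : ℝ) + 1)) (by positivity)
  refine ⟨θ, hθ, fun n E w ho hd hp => ?_⟩
  rw [Tm_smul]
  have h2 := h1 n E w ho hd hp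
  have h3 : (c : ℝ) * (-(η / ((c : ℝ) + 1))) ≤ c * Tm (p / dens E w) E w S :=
    mul_le_mul_of_nonneg_left h2 (Nat.cast_nonneg _)
  have h4 : (c : ℝ) * (η / ((c : ℝ) + 1)) ≤ η := by
    rw [← mul_div_assoc, div_le_iff₀ (by positivity)]
    nlinarith [(Nat.cast_nonneg c : (0 : ℝ) ≤ c)]
  push_cast
  linarith

/-- The thinning probability. -/
theorem tp_mem {p d : ℝ} (hp : 0 ≤ p) (hd : p < d) : 0 ≤ p / d ∧ p / d ≤ 1 ∧ p / d * d = p := by
  have hd0 : 0 < d := lt_of_le_of_lt hp hd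
  refine ⟨by positivity, (div_le_one hd0).2 hd.le, ?_⟩
  field_simp

theorem tok_G5 {p : ℝ} (hp : 0 ≤ p) {T : Tab} {gens : ℕ → List (List ℕ)}
    {cert : List (ℕ × List (List ℕ))} (h : T.Good gens cert) (hq : ∀ t < T.NT, PsdT T t) :
    TOK p T.G5 := by
  refine TOK.of_nonneg fun n E w ho hd => ?_
  obtain ⟨h0, h1, _⟩ := tp_mem hp hd
  have h2 := tkS5 E ho.wt.nn h0 h1 (Q := fun r a b => if r < 1024 then ((T.Q5 r a b : ℤ) : ℝ) else 0) ?_
  · refine h2.trans_eq ?_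
    refine Tr_congr _ E w (F := gS5 _) fun x _ => ?_
    unfold gS5 Tab.G5 rt lk5 lk6
    have : x % 2 ^ 10 < 1024 := Nat.mod_lt _ (by norm_num)
    simp only [this, if_true]
  · intro r f
    by_cases hr : r < 1024
    · simp only [hr, if_true]
      exact Tab.psd5 h hq hr f
    · simp only [hr, if_false, zero_mul, Finset.sum_const_zero, le_refl]

theorem tok_G3 {p : ℝ} (hp : 0 ≤ p) {T : Tab} {AT : ℕ → ℕ → BT} (h : T.Good3 AT)
    (hq : ∀ t < 2, PsdT T t) : TOK p T.G3 := by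
  refine TOK.of_nonneg fun n E w ho hd => ?_
  obtain ⟨h0, h1, _⟩ := tp_mem hp hd
  have h2 := tkS3 E ho.wt.nn h0 h1 (Q := fun r a b => ((T.Q3 r (a / 2) (b / 2) : ℤ) : ℝ))
    (fun r f => Tab.psd3 h hq r f)
  refine h2.trans_eq ?_
  refine Tr_congr _ E w (F := gS3 _) fun x _ => ?_
  unfold gS3 Tab.G3
  have e1 : x % 2 ^ 10 / 2 = cA x := by
    unfold cA
    omega
  rw [← e1, cB_eq_sl3]

theorem tok_G1 {p : ℝ} {T : Tab} (h : T.Good1) (hq : PsdT T 0) : TOK p T.G1 := by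
  refine TOK.of_nonneg fun n E w ho _ => ?_
  have h2 := tkS1 E ho.wt.nn (p / dens E w) (Q := fun a b => ((T.Q1 a b : ℤ) : ℝ))
    (fun f => Tab.psd1 h hq f)
  refine h2.trans_eq ?_
  refine Tr_congr _ E w (F := gS1 _) fun x _ => ?_
  unfold gS1 Tab.G1 cC
  rw [← cD_eq_sl1]

theorem tok_GD {T : TabD} {p : ℝ} (hp : 0 ≤ p) (hA : (T.A : ℝ) * p = T.B) : TOK p T.GD := by
  refine TOK.of_nonneg fun n E w ho hd => ?_
  obtain ⟨_, _, h2⟩ := tp_mem hp hd
  have h3 := tkD ho (p / dens E w) (fun r => ((T.kd r : ℤ) : ℝ))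
  rw [h2] at h3
  have e1 : Tm (p / dens E w) E w T.GD = Tr (p / dens E w) E w (fun x =>
      (T.A : ℝ) * gD (fun r => ((T.kd r : ℤ) : ℝ)) p x) := by
    rw [Tm_eq]
    refine Tr_congr _ E w fun x _ => ?_
    have h4 : ((x.testBit 30).toNat : ℝ) = b2r (x.testBit 30) := by
      unfold b2r
      cases x.testBit 30 <;> simp
    unfold TabD.GD gD rt
    push_cast
    rw [h4, ← hA]
    ring
  rw [e1, Tr_mul, h3, mul_zero]

theorem tok_GV {T : VTab} {p : ℝ} (hp0 : 0 ≤ p) (h : T.Good) (hG : T.ckG = true) (hA : 0 < T.PA)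
    (hp : (T.PA : ℝ) * p = T.PB) : TOK p T.GV := by
  refine TOK.of_lin (K := 3 * T.PA * T.MB) fun n E w ho hd => ?_
  obtain ⟨h0, h1, h2⟩ := tp_mem hp0 hd
  have hA' : (T.PA : ℝ) ≠ 0 := by positivity
  have hpp : (T.PB : ℝ) / T.PA = p := by rw [← hp]; field_simp
  have e1 : Tm (p / dens E w) E w T.GV = (T.PA : ℝ) * ∑ k ∈ range T.KM,
      Tr (p / dens E w) E w (gV (T.mu k) (T.Gf k) (T.Cf k) p) := by
    rw [Tm_eq, ← Tr_sum, ← Tr_mul]
    refine Tr_congr _ E w fun x _ => ?_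
    rw [VTab.GV_real h hA, hpp]
  have key : ∀ k ∈ range T.KM, -(3 * (L - dens E w) * ∑ r ∈ range 16, T.mu k r) ≤
      Tr (p / dens E w) E w (gV (T.mu k) (T.Gf k) (T.Cf k) p) := by
    intro k _
    have := tkV ho h0 h1 (μ := T.mu k) (G := T.Gf k) (C := T.Cf k) (VTab.mu_nonneg k)
      (VTab.Gf_nonneg k) (VTab.Gf_le h hG k) (VTab.Cf_le k)
    rwa [h2] at this
  have h3 := Finset.sum_le_sum key
  have h4 : ∑ k ∈ range T.KM, -(3 * (L - dens E w) * ∑ r ∈ range 16, T.mu k r) =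
      -(3 * (L - dens E w) * T.MB) := by
    rw [Finset.sum_neg_distrib, ← Finset.mul_sum]
    rfl
  rw [h4] at h3
  rw [e1]
  have h5 := mul_le_mul_of_nonneg_left h3 (Nat.cast_nonneg (α := ℝ) T.PA)
  linarith

theorem tok_H6 {P : ATab} {T : Tab} {gens : ℕ → List (List ℕ)} {cert : List (ℕ × List (List ℕ))}
    {p : ℝ} (hp0 : 0 ≤ p) (h : T.Good gens cert)
    (hC : ∀ t < T.NT, ∀ f < T.nf t, Psd 6 (fun a b => ((P.cA t f a b : ℤ) : ℝ)))
    (hp : (P.A : ℝ) * p = P.B) : TOK p (P.H6 T) := by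
  refine TOK.of_nonneg fun n E w ho hd => ?_
  obtain ⟨h0, h1, h2⟩ := tp_mem hp0 hd
  have h3 := tkA6 ho h0 h1 (P.CR_psd h hC) (P.CR_comm T)
  rw [h2] at h3
  have e1 : Tm (p / dens E w) E w (P.GA T) = P.A * Tr (p / dens E w) E w (gA6 (P.CR T) p) := by
    rw [Tm_eq, ← Tr_mul]
    refine Tr_congr _ E w fun x hx => ?_
    rw [P.GA_eq h p hx, hp, sub_self, zero_mul, sub_zero]
  have e2 : Tm (p / dens E w) E w (P.H6 T) = 2 * Tm (p / dens E w) E w (P.GA T) := by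
    have h4 : P.H6 T = fun m => P.GA T m + P.GA T (tau 5 m) := rfl
    have h5 : Tm (p / dens E w) E w (fun m => P.GA T (tau 5 m)) = Tm (p / dens E w) E w (P.GA T) :=
      Tr_tau ho.free ho.wt _ (by norm_num) (fun m => ((P.GA T m : ℤ) : ℝ))
    rw [h4, Tm_add, h5]
    ring
  rw [e2, e1]
  exact mul_nonneg (by norm_num) (mul_nonneg (Nat.cast_nonneg _) h3)

end KC
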